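import Pool.Agent.W832.HR.Cont2

/-! The two-point function between two points in the bulk, at every scale. -/

set_option autoImplicit false

namespace Pool.Agent.V11324.NS

open Pool.Agent.W832.HR
open H978R2.Hex (V)
open scoped ENNReal

theorem emb_add (v : V) {t : V} (ht : Even (t.1 + t.2)) :
    emb (v + t) = emb v + ⟨Real.sqrt 3 / 2 * t.1, 3 / 2 * t.2⟩ := by
  have hiff : Even ((v + t).1 + (v + t).2) ↔ Even (v.1 + v.2) := by
    simp only [Prod.fst_add, Prod.snd_add]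
    rw [Int.even_iff] at *
    rw [Int.even_iff]
    omega
  unfold emb
  apply Complex.ext
  · simp only [Complex.add_re, Prod.fst_add]
    push_cast
    ring
  · change 3 / 2 * (((v + t).2 : ℤ) : ℝ) + (if Even ((v + t).1 + (v + t).2) then 1 / 2 else 0) =
      (3 / 2 * (v.2 : ℝ) + if Even (v.1 + v.2) then 1 / 2 else 0) + 3 / 2 * (t.2 : ℝ)
    by_cases h : Even (v.1 + v.2)
    · rw [if_pos (hiff.2 h), if_pos h, Prod.snd_add]
      push_cast
      ring
    · rw [if_neg (fun h' => h (hiff.1 h')), if_neg h, Prod.snd_add]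
      push_cast
      ring

theorem emb_one : ‖emb (1, 0)‖ ≤ 1 := by
  refine (Complex.norm_le_abs_re_add_abs_im _).trans ?_
  unfold emb
  have h : ¬ Even ((1 : ℤ) + 0) := by decide
  simp only
  rw [if_neg h, abs_of_nonneg (by have := s3_nonneg; positivity)]
  have := s3_le
  simp only [Int.cast_one, Int.cast_zero, mul_one, mul_zero, add_zero, abs_zero]
  linarith

theorem bulk : ∃ C : ℕ, 1 ≤ C ∧ ∀ (T : ℕ) (D : Set V) (x y : V), C ≤ T → Odd (x.1 + x.2) →
    y.1 - y.2 = x.1 - x.2 + 2 * T - 1 →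
    C * |((y.1 + 3 * y.2 : ℤ) : ℝ) - ((x.1 + 3 * x.2 : ℤ) : ℝ)| ≤ T →
    (∀ v : V, ‖emb v - emb x‖ ≤ 10 * T → v ∈ D) →
    ENNReal.ofReal ((1 / (T : ℝ)) ^ C) ≤ Z D x y := by
  obtain ⟨b, hb⟩ : ∃ b : ℂ, b = ((3 / 2 : ℝ) : ℂ) * dn := ⟨_, rfl⟩
  have hbn : ‖b‖ = 3 / 2 := by
    rw [hb, norm_mul, norm_dn, mul_one, Complex.norm_real]
    norm_num
  have hbre : b.re = 3 / 2 * (Real.sqrt 3 / 2) := by
    rw [hb, Complex.re_ofReal_mul]
    rfl
  have hbim : b.im = 3 / 2 * (-1 / 2) := by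
    rw [hb, Complex.im_ofReal_mul]
    rfl
  obtain ⟨K, hK, -, C, hC1, h⟩ := domain_two_point (Metric.ball (0 : ℂ) 5) Metric.isOpen_ball
    ((convex_ball (0 : ℂ) 5).isConnected ⟨0, by simp⟩) 0 b
    (by
      intro h0
      rw [← h0, norm_zero] at hbn
      norm_num at hbn) 1 (-1) (Or.inl rfl) (Or.inr rfl) 1 one_pos
    (by
      rintro z ⟨hz, -⟩
      rw [sub_zero] at hz
      rw [mem_ball_zero_iff]
      linarith)
    (by
      rintro z ⟨hz, -⟩
      rw [mem_ball_zero_iff]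
      have h1 : ‖z‖ ≤ ‖z - b‖ + ‖b‖ := by
        have := norm_add_le (z - b) b
        rwa [sub_add_cancel] at this
      linarith)
  refine ⟨10 * C, by omega, ?_⟩
  intro T D x y hT hx hy hlat hD
  have hCr : (1 : ℝ) ≤ C := by exact_mod_cast hC1
  have hTr : 10 * (C : ℝ) ≤ T := by exact_mod_cast hT
  have hT0 : (0 : ℝ) < T := by linarith
  obtain ⟨δ, hδ⟩ : ∃ δ : ℝ, δ = 1 / T := ⟨_, rfl⟩
  have hδ0 : 0 < δ := by rw [hδ]; positivity
  have hδT : δ * T = 1 := by rw [hδ]; field_simp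
  obtain ⟨t, ht⟩ : ∃ t : V, t = (x.1 - 1, x.2) := ⟨_, rfl⟩
  have hte : Even (t.1 + t.2) := by
    rw [ht]
    simp only
    rw [Int.even_iff]
    rw [Int.odd_iff] at hx
    omega
  obtain ⟨z, hz⟩ : ∃ z : ℤ, z = y.2 - x.2 := ⟨_, rfl⟩
  obtain ⟨q, hq⟩ : ∃ q : V, q = (2 * (T : ℤ) + z, z) := ⟨_, rfl⟩
  have hqt : q + t = y := by
    rw [hq, ht, hz]
    apply Prod.ext
    · simp only [Prod.fst_add]; omega
    · simp only [Prod.snd_add]; omega
  have hxt : ((1, 0) : V) + t = x := by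
    rw [ht]
    apply Prod.ext
    · simp only [Prod.fst_add]; omega
    · simp only [Prod.snd_add]; omega
  have hqe : Even (q.1 + q.2) := by
    rw [hq]
    simp only
    rw [Int.even_iff]
    omega
  have hT10 : (10 : ℝ) ≤ T := by linarith
  have hδ10 : 10 * C * δ ≤ 1 := by
    rw [hδ, mul_one_div, div_le_one hT0]
    exact hTr
  -- the norm of the scaled points
  obtain ⟨e, he⟩ : ∃ e : ℝ, e = 2 * T + 4 * z := ⟨_, rfl⟩
  have hlat' : |e - 1| * (10 * C) ≤ T := by
    have e1 : ((y.1 + 3 * y.2 : ℤ) : ℝ) - ((x.1 + 3 * x.2 : ℤ) : ℝ) = e - 1 := by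
      have e2 : (y.1 : ℝ) - y.2 = x.1 - x.2 + 2 * T - 1 := by exact_mod_cast hy
      have e3 : (z : ℝ) = y.2 - x.2 := by exact_mod_cast hz
      rw [he, e3]
      push_cast
      linarith
    rw [e1] at hlat
    push_cast at hlat
    linarith
  have hcl : ‖(δ : ℂ) * emb q - b‖ * (10 * C) ≤ 2 := by
    have hre : ((δ : ℂ) * emb q - b).re = Real.sqrt 3 / 8 * (e * δ) := by
      rw [Complex.sub_re, Complex.re_ofReal_mul, hbre]
      unfold emb
      rw [hq]
      simp only
      push_cast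
      rw [he]
      linear_combination (3 * Real.sqrt 3 / 4) * hδT
    have him : ((δ : ℂ) * emb q - b).im = 3 / 8 * (e * δ) + δ / 2 := by
      rw [Complex.sub_im, Complex.im_ofReal_mul, hbim]
      unfold emb
      simp only
      rw [if_pos hqe, hq]
      simp only
      rw [he]
      linear_combination (-3 / 4) * hδT
    have h1 := Complex.norm_le_abs_re_add_abs_im ((δ : ℂ) * emb q - b)
    rw [hre, him] at h1
    have h2 : |e * δ| ≤ (|e - 1| + 1) * δ := by
      rw [abs_mul, abs_of_pos hδ0]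
      apply mul_le_mul_of_nonneg_right _ hδ0.le
      have := abs_add_le (e - 1) 1
      rw [sub_add_cancel, abs_one] at this
      exact this
    have h3 : |Real.sqrt 3 / 8 * (e * δ)| ≤ 7 / 32 * ((|e - 1| + 1) * δ) := by
      rw [abs_mul, abs_of_nonneg (by have := s3_nonneg; positivity)]
      have := s3_le
      exact mul_le_mul (by linarith) h2 (abs_nonneg _) (by norm_num)
    have h4 : |3 / 8 * (e * δ) + δ / 2| ≤ 3 / 8 * ((|e - 1| + 1) * δ) + δ / 2 := by
      refine (abs_add_le _ _).trans ?_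
      rw [abs_mul, abs_of_pos (by norm_num : (0 : ℝ) < 3 / 8), abs_of_pos (by positivity : 0 < δ / 2)]
      gcongr
    have h5 : (|e - 1| + 1) * δ * (10 * C) ≤ 2 := by
      have h6 : |e - 1| * (10 * C) * δ ≤ 1 := by
        calc |e - 1| * (10 * C) * δ ≤ T * δ := mul_le_mul_of_nonneg_right hlat' hδ0.le
          _ = 1 := by rw [mul_comm]; exact hδT
      calc (|e - 1| + 1) * δ * (10 * C) = |e - 1| * (10 * C) * δ + 10 * C * δ := by ring
        _ ≤ 2 := by linarith
    have h7 : ‖(δ : ℂ) * emb q - b‖ ≤ 7 / 32 * ((|e - 1| + 1) * δ) +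
        (3 / 8 * ((|e - 1| + 1) * δ) + δ / 2) := by linarith
    calc ‖(δ : ℂ) * emb q - b‖ * (10 * C) ≤ (7 / 32 * ((|e - 1| + 1) * δ) +
        (3 / 8 * ((|e - 1| + 1) * δ) + δ / 2)) * (10 * C) :=
          mul_le_mul_of_nonneg_right h7 (by positivity)
      _ = 19 / 32 * ((|e - 1| + 1) * δ * (10 * C)) + (10 * C * δ) / 2 := by ring
      _ ≤ 2 := by linarith
  have hsub : ∀ v : V, ‖emb v - emb (1, 0)‖ ≤ 10 * T → v ∈ {w : V | w + t ∈ D} := by
    intro v hv
    apply hD
    have e1 : emb (v + t) - emb x = emb v - emb (1, 0) := by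
      rw [← hxt, emb_add v hte, emb_add (1, 0) hte]
      ring
    rw [e1]
    exact hv
  have hunit : ∀ v : V, ‖emb v‖ = T * ‖(δ : ℂ) * emb v‖ := by
    intro v
    rw [norm_mul, Complex.norm_real, Real.norm_of_nonneg hδ0.le]
    have : (T : ℝ) * (δ * ‖emb v‖) = (δ * T) * ‖emb v‖ := by ring
    rw [this, hδT, one_mul]
  have hsc : ∀ v w : V, ‖emb v - emb w‖ = T * ‖(δ : ℂ) * emb v - δ * emb w‖ := by
    intro v w
    rw [← mul_sub, norm_mul, Complex.norm_real, Real.norm_of_nonneg hδ0.le]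
    have : (T : ℝ) * (δ * ‖emb v - emb w‖) = (δ * T) * ‖emb v - emb w‖ := by ring
    rw [this, hδT, one_mul]
  have h1 := emb_one
  have hfin := h δ hδ0 (by nlinarith) {w : V | w + t ∈ D} (1, 0) q
    (Or.inl ⟨rfl, by decide⟩) (Or.inr ⟨rfl, hqe⟩)
    (by
      rw [sub_zero, norm_mul, Complex.norm_real, Real.norm_of_nonneg hδ0.le]
      have h2 : δ * ‖emb (1, 0)‖ ≤ δ := mul_le_of_le_one_right hδ0.le h1
      have h3 : C * (δ * ‖emb (1, 0)‖) ≤ C * δ := mul_le_mul_of_nonneg_left h2 (by positivity)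
      nlinarith)
    (by nlinarith)
    (by
      intro v hv
      apply hsub
      have h2 : ‖(δ : ℂ) * emb v‖ < 5 := by
        have := hK hv
        rwa [mem_ball_zero_iff] at this
      have h3 : ‖emb v‖ ≤ T * 5 := by
        rw [hunit v]
        gcongr
      have h4 := norm_sub_le (emb v) (emb (1, 0))
      linarith)
    (by
      rintro v ⟨hv, -⟩
      apply hsub
      rw [hsc]
      have h2 : T * ‖(δ : ℂ) * emb v - δ * emb (1, 0)‖ ≤ T * 1 := by gcongr
      linarith)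
    (by
      rintro v ⟨hv, -⟩
      apply hsub
      have h2 : ‖emb v - emb q‖ ≤ T * 1 := by
        rw [hsc]
        gcongr
      have h3 : ‖(δ : ℂ) * emb q‖ ≤ 5 := by
        have h4 := norm_add_le ((δ : ℂ) * emb q - b) b
        rw [sub_add_cancel, hbn] at h4
        have h5 : ‖(δ : ℂ) * emb q - b‖ ≤ 1 := by
          have h6 := norm_nonneg ((δ : ℂ) * emb q - b)
          nlinarith
        linarith
      have h4 : ‖emb q‖ ≤ T * 5 := by
        rw [hunit q]
        gcongr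
      have h5 : ‖emb v - emb (1, 0)‖ ≤ ‖emb v - emb q‖ + (‖emb q‖ + ‖emb (1, 0)‖) := by
        have e1 : emb v - emb (1, 0) = (emb v - emb q) + (emb q - emb (1, 0)) := by ring
        rw [e1]
        refine (norm_add_le _ _).trans ?_
        gcongr
        exact norm_sub_le _ _
      linarith)
  have hZ := Z_trans (D := {w : V | w + t ∈ D}) (D' := D) (a := (1, 0)) (b := q) t hte
    (fun p hp => hp)
  rw [hxt, hqt] at hZ
  refine le_trans (ENNReal.ofReal_le_ofReal ?_) (hfin.trans hZ)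
  rw [← hδ]
  apply pow_le_pow_of_le_one hδ0.le _ (by omega)
  nlinarith

end Pool.Agent.V11324.NS
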