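import Pool.Agent.V11324.NS.StepFin

/-! **Theorem.** All crossings of the critical walk in a domain, up to the boundary, are even. -/

set_option autoImplicit false

namespace Pool.Agent.V11324.NS

open Pool.Agent.W832.HR
open H978R2.Hex (V)
open scoped ENNReal

/-- images under a symmetry -/
theorem ZE_map {g : V → V} (hg : Function.Injective g)
    (hn : ∀ p q, Nbr p q → Nbr (g p) (g q)) (D : Set V) (a b : V) (E : List V → Prop) :
    ZE D a b (fun l => E (l.map g)) ≤ ZE (g '' D) (g a) (g b) E := by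
  have hm : ∀ l, l ∈ Traj D a b ∧ E (l.map g) → l.map g ∈ Traj (g '' D) (g a) (g b) ∧
      E (l.map g) := by
    rintro l ⟨h1, h2⟩
    exact ⟨traj_map (D' := g '' D) (fun p q e => hg e) hn (fun p hp => Set.mem_image_of_mem g hp)
      rfl rfl h1, h2⟩
  have hinj : Function.Injective (fun l : {l // l ∈ Traj D a b ∧ E (l.map g)} =>
      (⟨l.1.map g, hm l.1 l.2⟩ : {l // l ∈ Traj (g '' D) (g a) (g b) ∧ E l})) := by
    rintro ⟨l, h1⟩ ⟨l', h1'⟩ e
    apply Subtype.ext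
    have e' := Subtype.mk.inj e
    exact List.map_injective_iff.2 hg e'
  refine le_trans (le_of_eq ?_) (ENNReal.tsum_comp_le_tsum_of_injective hinj
      (fun l : {l // l ∈ Traj (g '' D) (g a) (g b) ∧ E l} => xc ^ (l.1.length - 1)))
  unfold ZE
  refine tsum_congr fun l => ?_
  simp only [List.length_map]

/-- the event, for the three directions -/
def UEv (w : ℝ) (l : List V) : Prop := ∃ e : ℂ, (e = e0 ∨ e = e1 ∨ e = e2) ∧ UnevenD e w l

theorem UEv_mono {w w' : ℝ} (hw' : 0 < w') (h : w' ≤ w) {l : List V} (hl : UEv w l) :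
    UEv w' l := by
  obtain ⟨e, he, l1, m, l2, H, h1, h2, h3, h4⟩ := hl
  refine ⟨e, he, l1, m, l2, H, h1, h2, h3, ?_⟩
  rcases h4 with h4 | h4
  · left
    intro p hp q hq
    refine (h4 p hp q hq).trans ?_
    gcongr
  · right
    intro h5
    apply h4
    intro p hp q hq
    refine (h5 p hp q hq).trans ?_
    gcongr

/-- the two upward events -/
def Ev2 (w : ℝ) (l : List V) : Prop := Up2 w l ∨ Up2 w l.reverse

theorem uev_three {w : ℝ} (hw1 : 1 ≤ w) {l : List V} (hl : l.IsChain Nbr) (h : UEv w l) :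
    Ev2 w l ∨ (Ev2 w (l.map (fun v => rot (rot v))) ∨ Ev2 w (l.map rot)) := by
  obtain ⟨e, he, hU⟩ := h
  have hch : ∀ g : V → V, (∀ p q, Nbr p q → Nbr (g p) (g q)) → (l.map g).IsChain Nbr := by
    intro g hg
    rw [List.isChain_map]
    exact hl.imp fun {p q} hpq => hg p q hpq
  rcases he with rfl | rfl | rfl
  · exact Or.inl (uneven_up hw1 hl hU)
  · right; left
    refine uneven_up hw1 (hch _ fun _ _ h => rot_nbr (rot_nbr h)) ?_
    refine uneven_map (a := 3 / 4) (b := -(Real.sqrt 3 / 4)) ht_e1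
      (fun v => by rw [lt_e1]; ring) (fun v => ?_) hU
    exact (rot_spec (rot v)).2.2.trans (rot_spec v).2.2
  · right; right
    refine uneven_up hw1 (hch _ fun _ _ h => rot_nbr h) ?_
    exact uneven_map (a := 0) (b := -(Real.sqrt 3 / 2)) (fun v => by rw [ht_e2]; ring)
      (fun v => by rw [lt_e2]; ring) (fun v => (rot_spec v).2.2) hU

theorem rot_box {n : ℤ} {v : V} (h : |v.1| ≤ n ∧ |v.2| ≤ n) :
    |(rot v).1| ≤ 2 * n ∧ |(rot v).2| ≤ 2 * n := by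
  obtain ⟨h1, h2, -⟩ := rot_spec v
  obtain ⟨h3, h4⟩ := h
  rw [abs_le] at h3 h4
  rw [abs_le, abs_le]
  split_ifs at h1 h2 <;> omega

/-- **the unnormalised bound** -/
theorem all_le {m : ℕ} (hm : 1 ≤ m) : ∃ C : ℝ, 0 < C ∧ ∀ L s : ℕ, 2 ≤ L → 1 ≤ s →
    ∀ D : Set V, (∀ v ∈ D, |v.1| ≤ (m * L : ℕ) ∧ |v.2| ≤ (m * L : ℕ)) → ∀ p q : V,
    ZE D p q (UEv (C * s * Real.log L ^ 2)) ≤
      ENNReal.ofReal (Real.exp (-(s * Real.log L ^ 2))) := by
  classical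
  obtain ⟨m4, hm4⟩ : ∃ m4 : ℕ, m4 = 4 * m := ⟨_, rfl⟩
  obtain ⟨K0, hK0⟩ := Pool.Agent.TH303.HX2.gluing m4
  obtain ⟨K, hK⟩ : ∃ K, K = |K0| := ⟨_, rfl⟩
  have hKn : 0 ≤ K := by rw [hK]; exact abs_nonneg _
  have hm41 : 1 ≤ m4 := by omega
  have hm4r : (1 : ℝ) ≤ m4 := by exact_mod_cast hm41
  obtain ⟨c1, hc1⟩ : ∃ c1, c1 = 4 * Real.log (3 * m4) + 2 := ⟨_, rfl⟩
  have hc1n : 0 ≤ c1 := by
    have h1 : 0 ≤ Real.log (3 * m4) := Real.log_nonneg (by linarith)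
    rw [hc1]
    linarith
  obtain ⟨G, hG⟩ : ∃ G, G = 4 * c1 + 2 * K + 12 := ⟨_, rfl⟩
  have hGn : 0 ≤ G := by rw [hG]; positivity
  obtain ⟨C, hC⟩ : ∃ C, C = 6 * (32 * (1 + G) + 448) := ⟨_, rfl⟩
  have hCpos : 0 < C := by rw [hC]; positivity
  refine ⟨C, hCpos, ?_⟩
  intro n s hn hs D hD p q
  have hlog := log_ge hn
  have hnr : (2 : ℝ) ≤ n := by exact_mod_cast hn
  have hsr : (1 : ℝ) ≤ s := by exact_mod_cast hs
  obtain ⟨k2, hk⟩ : ∃ k2, k2 = Real.log n ^ 2 := ⟨_, rfl⟩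
  have hk4 : 1 / 4 ≤ k2 := by rw [hk]; nlinarith
  have hsk : k2 ≤ s * k2 := by nlinarith
  obtain ⟨w, hw⟩ : ∃ w, w = C * s * Real.log n ^ 2 := ⟨_, rfl⟩
  have hwl : w = C * (s * k2) := by rw [hw, hk]; ring
  have hw1 : 1 ≤ w := by
    rw [hwl, hC]
    nlinarith
  obtain ⟨A, hA⟩ : ∃ A, A = (s + G) * k2 := ⟨_, rfl⟩
  have hApos : 0 < A := by rw [hA]; positivity
  have hc32 : 6 * (32 * A + 112) ≤ w := by
    have h1 : 32 * A + 112 ≤ (32 * (1 + G) + 448) * (s * k2) := by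
      have h2 : A ≤ (1 + G) * (s * k2) := by
        rw [hA]
        nlinarith [mul_nonneg hGn (by linarith : 0 ≤ s * k2 - k2)]
      nlinarith
    rw [hwl, hC]
    linarith
  -- the box
  obtain ⟨R, hR⟩ : ∃ R : ℤ, R = (m4 * n : ℕ) := ⟨_, rfl⟩
  obtain ⟨F, hF⟩ : ∃ F : Finset V, F = Finset.Icc (-R) R ×ˢ Finset.Icc (-R) R := ⟨_, rfl⟩
  obtain ⟨N, hN⟩ : ∃ N : ℝ, N = 3 * m4 * n := ⟨_, rfl⟩
  have hNpos : 0 < N := by rw [hN]; positivity
  have hRr : (R : ℝ) = m4 * n := by rw [hR]; push_cast; ring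
  have hR0 : 0 ≤ R := by rw [hR]; positivity
  have hn1 : 2 * (R : ℝ) + 1 ≤ N := by
    rw [hRr, hN]
    nlinarith
  have hFc : (F.card : ℝ) ≤ N ^ 2 := by
    rw [hF, Finset.card_product, Int.card_Icc]
    have e1 : (((R + 1 - -R).toNat : ℕ) : ℝ) = 2 * R + 1 := by
      have : (((R + 1 - -R).toNat : ℕ) : ℤ) = 2 * R + 1 := by
        rw [Int.toNat_of_nonneg (by omega)]
        ring
      exact_mod_cast this
    push_cast
    rw [e1]
    have : (0 : ℝ) ≤ 2 * R + 1 := by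
      have : (0 : ℝ) ≤ R := by exact_mod_cast hR0
      linarith
    nlinarith
  -- one direction
  have hone : ∀ (D' : Set V), (∀ v ∈ D', |v.1| ≤ R ∧ |v.2| ≤ R) → ∀ a b : V,
      ZE D' a b (Ev2 w) ≤ ENNReal.ofReal (4 * N ^ 4 *
        Real.exp (-A + 2 * (K * Real.log n ^ 2))) := by
    intro D' hD' a b
    have hg : ∀ a v b : V, Z D' a v * Z D' v b ≤
        ENNReal.ofReal (Real.exp (K * Real.log n ^ 2)) * Z D' a b := by
      intro a v b
      refine (hK0 n hn D' (fun v hv => ?_) a v b).trans ?_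
      · obtain ⟨h1, h2⟩ := hD' v hv
        rw [← hRr]
        constructor
        · exact_mod_cast h1
        · exact_mod_cast h2
      · refine mul_le_mul' (ENNReal.ofReal_le_ofReal (Real.exp_le_exp.2 ?_)) (le_of_eq rfl)
        rw [hK]
        gcongr
        exact le_abs_self _
    have hFD : ∀ v ∈ D', v ∈ F := by
      intro v hv
      obtain ⟨h1, h2⟩ := hD' v hv
      rw [abs_le] at h1 h2
      rw [hF, Finset.mem_product, Finset.mem_Icc, Finset.mem_Icc]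
      exact ⟨h1, h2⟩
    obtain ⟨b', hb⟩ : ∃ b', b' = 2 * ENNReal.ofReal (Real.exp (-A + 2 * (K * Real.log n ^ 2))) :=
      ⟨_, rfl⟩
    have h1 : ZE D' a b (Ev2 w) ≤ 2 * (((F ×ˢ F).card : ℝ≥0∞) * b') := by
      rw [two_mul, hb]
      refine (ZE_or D' a b _ _).trans (add_le_add ?_ ((ZE_rev D' a b (Up2 w)).trans ?_))
      · exact up2_le hKn hg F hFD hApos (by linarith) hc32 a b
      · exact up2_le hKn hg F hFD hApos (by linarith) hc32 b a
    refine h1.trans ?_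
    rw [hb]
    have e1 : ((F ×ˢ F).card : ℝ≥0∞) = ENNReal.ofReal ((F ×ˢ F).card : ℝ) := by
      rw [ENNReal.ofReal_natCast]
    have e2 : (2 : ℝ≥0∞) = ENNReal.ofReal 2 := by simp
    rw [e1, e2, ← ENNReal.ofReal_mul (by positivity), ← ENNReal.ofReal_mul (by positivity),
      ← ENNReal.ofReal_mul (by positivity)]
    apply ENNReal.ofReal_le_ofReal
    rw [Finset.card_product]
    push_cast
    obtain ⟨f, hf⟩ : ∃ f : ℝ, f = (F.card : ℝ) := ⟨_, rfl⟩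
    rw [← hf] at hFc ⊢
    have hf0 : 0 ≤ f := by rw [hf]; positivity
    have h2 : f * f ≤ N ^ 4 := by
      calc f * f = f ^ 2 := by ring
        _ ≤ (N ^ 2) ^ 2 := pow_le_pow_left₀ hf0 hFc 2
        _ = N ^ 4 := by ring
    have h3 := Real.exp_pos (-A + 2 * (K * Real.log n ^ 2))
    calc 2 * (f * f * (2 * Real.exp (-A + 2 * (K * Real.log n ^ 2)))) =
        4 * (f * f) * Real.exp (-A + 2 * (K * Real.log n ^ 2)) := by ring
      _ ≤ 4 * N ^ 4 * Real.exp (-A + 2 * (K * Real.log n ^ 2)) := by gcongr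
  -- the three domains
  have hb0 : ∀ v ∈ D, |v.1| ≤ (m * n : ℕ) ∧ |v.2| ≤ (m * n : ℕ) := hD
  have hRm : R = 4 * ((m * n : ℕ) : ℤ) := by rw [hR, hm4]; push_cast; ring
  have hmn : (0 : ℤ) ≤ ((m * n : ℕ) : ℤ) := by positivity
  have hd0 : ∀ v ∈ D, |v.1| ≤ R ∧ |v.2| ≤ R := by
    intro v hv
    obtain ⟨h1, h2⟩ := hb0 v hv
    rw [hRm]
    exact ⟨by linarith, by linarith⟩
  have hd1 : ∀ v ∈ rot '' D, |v.1| ≤ R ∧ |v.2| ≤ R := by
    rintro _ ⟨v, hv, rfl⟩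
    obtain ⟨h1, h2⟩ := rot_box (hb0 v hv)
    rw [hRm]
    exact ⟨by linarith, by linarith⟩
  have hd2 : ∀ v ∈ (fun v => rot (rot v)) '' D, |v.1| ≤ R ∧ |v.2| ≤ R := by
    rintro _ ⟨v, hv, rfl⟩
    obtain ⟨h1, h2⟩ := rot_box (rot_box (hb0 v hv))
    rw [hRm]
    exact ⟨by linarith, by linarith⟩
  rw [← hw]
  have hsum : ZE D p q (UEv w) ≤ 3 * ENNReal.ofReal (4 * N ^ 4 *
        Real.exp (-A + 2 * (K * Real.log n ^ 2))) := by
    have e3 : (3 : ℝ≥0∞) = 1 + (1 + 1) := by norm_num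
    rw [e3, add_mul, add_mul, one_mul]
    refine le_trans (ZE_mono fun l hl h => uev_three hw1 hl.2.2.2.1 h)
      ((ZE_or D p q _ _).trans (add_le_add (hone D hd0 p q) ((ZE_or D p q _ _).trans
        (add_le_add ?_ ?_))))
    · exact (ZE_map (g := fun v => rot (rot v)) (fun a b h => rot_inj (rot_inj h))
        (fun _ _ h => rot_nbr (rot_nbr h)) D p q (Ev2 w)).trans (hone _ hd2 _ _)
    · exact (ZE_map (g := rot) rot_inj (fun _ _ h => rot_nbr h) D p q (Ev2 w)).trans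
        (hone _ hd1 _ _)
  refine hsum.trans ?_
  have e3 : (3 : ℝ≥0∞) = ENNReal.ofReal 3 := by simp
  rw [e3, ← ENNReal.ofReal_mul (by positivity)]
  apply ENNReal.ofReal_le_ofReal
  have hNexp : N ≤ Real.exp (c1 * k2) := by
    rw [← Real.log_le_iff_le_exp hNpos, hN, hc1, hk]
    exact log_bd hm41 hn
  have h6 : N ^ 4 ≤ Real.exp (4 * c1 * k2) := by
    calc N ^ 4 ≤ Real.exp (c1 * k2) ^ 4 := pow_le_pow_left₀ hNpos.le hNexp _
      _ = _ := by
          rw [← Real.exp_nat_mul]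
          congr 1
          push_cast
          ring
  have h12 : 12 ≤ Real.exp (12 * k2) := by
    have h5 : Real.exp 3 ≤ Real.exp (12 * k2) := Real.exp_le_exp.2 (by linarith)
    have h7 := Real.exp_one_gt_d9
    have e3 : Real.exp 3 = Real.exp 1 ^ 3 := by
      rw [← Real.exp_nat_mul]
      norm_num
    have h8 : (2.7 : ℝ) ^ 3 ≤ Real.exp 1 ^ 3 := pow_le_pow_left₀ (by norm_num) (by linarith) 3
    rw [e3] at h5
    norm_num at h8
    linarith
  calc 3 * (4 * N ^ 4 * Real.exp (-A + 2 * (K * Real.log n ^ 2))) =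
        12 * N ^ 4 * Real.exp (-A + 2 * (K * Real.log n ^ 2)) := by ring
      _ ≤ Real.exp (12 * k2) * Real.exp (4 * c1 * k2) *
          Real.exp (-A + 2 * (K * Real.log n ^ 2)) := by gcongr
      _ = Real.exp (-(s * Real.log n ^ 2)) := by
          rw [← Real.exp_add, ← Real.exp_add, ← hk, hA, hG]
          congr 1
          ring

/-- **Theorem.** -/
theorem dom (Ω : Set ℂ) (hΩ : IsOpen Ω) (hc : IsConnected Ω) (M : ℝ) (a b : ℂ) (hab : a ≠ b)
    (ε ε' : ℝ) (hε : ε = 1 ∨ ε = -1) (hε' : ε' = 1 ∨ ε' = -1) (r : ℝ) (hr : 0 < r)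
    (ha : HD a ε r ⊆ Ω) (hb : HD b ε' r ⊆ Ω) :
    ∃ K : Set ℂ, K ⊆ Ω ∧ IsCompact K ∧ ∃ C : ℕ, 1 ≤ C ∧ ∀ δ : ℝ, 0 < δ → C * δ ≤ 1 →
      ∀ (D : Set V) (p q : V), (∀ v ∈ D, ‖(δ : ℂ) * emb v‖ ≤ M) → Bd ε p → Bd ε' q →
      C * ‖(δ : ℂ) * emb p - a‖ ≤ 1 → C * ‖(δ : ℂ) * emb q - b‖ ≤ 1 →
      (∀ v : V, (δ : ℂ) * emb v ∈ K → v ∈ D) → Hd δ ε r p ⊆ D → Hd δ ε' r q ⊆ D →
      ∀ s : ℕ, 1 ≤ s → Prob D p q (UEv (C * s * Real.log (1 / δ) ^ 2)) ≤
        ENNReal.ofReal (Real.exp (-(s * Real.log (1 / δ) ^ 2))) := by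
  obtain ⟨K, hK, hKc, C0, hC0, h⟩ := domain_two_point Ω hΩ hc a b hab ε ε' hε hε' r hr ha hb
  have hM := abs_nonneg M
  obtain ⟨m, hm⟩ : ∃ m : ℕ, m = ⌈2 * |M| + 1⌉₊ := ⟨_, rfl⟩
  have hmr : 2 * |M| + 1 ≤ m := by rw [hm]; exact Nat.le_ceil _
  have hm1 : 1 ≤ m := by
    have : (1 : ℝ) ≤ m := by linarith
    exact_mod_cast this
  obtain ⟨C1, hC1, hall⟩ := all_le hm1
  obtain ⟨C, hC⟩ : ∃ C : ℕ, C = C0 + 3 + ⌈4 * C1 * (1 + C0)⌉₊ := ⟨_, rfl⟩
  have hCr : 4 * C1 * (1 + C0) ≤ C := by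
    rw [hC]
    push_cast
    have := Nat.le_ceil (4 * C1 * (1 + C0))
    linarith [(Nat.cast_nonneg C0 : (0 : ℝ) ≤ C0)]
  have hCC0 : (C0 : ℝ) ≤ C := by
    rw [hC]
    push_cast
    linarith [(Nat.cast_nonneg ⌈4 * C1 * (1 + C0)⌉₊ : (0 : ℝ) ≤ (⌈4 * C1 * (1 + C0)⌉₊ : ℝ))]
  have hC3 : (3 : ℝ) ≤ C := by
    rw [hC]
    push_cast
    linarith [(Nat.cast_nonneg ⌈4 * C1 * (1 + C0)⌉₊ : (0 : ℝ) ≤ (⌈4 * C1 * (1 + C0)⌉₊ : ℝ)),
      (Nat.cast_nonneg C0 : (0 : ℝ) ≤ C0)]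
  refine ⟨K, hK, hKc, C, by omega, ?_⟩
  intro δ hδ hCδ D p q hDM hp hq hpa hqb hKD hHp hHq s hs
  have hsr : (1 : ℝ) ≤ s := by exact_mod_cast hs
  have h3δ : 3 * δ ≤ 1 := by nlinarith
  obtain ⟨lam, hlam⟩ : ∃ lam, lam = Real.log (1 / δ) := ⟨_, rfl⟩
  have hinv : 3 ≤ 1 / δ := by rw [le_div_iff₀ hδ]; linarith
  have hlam1 : 1 ≤ lam := by
    rw [hlam, Real.le_log_iff_exp_le (by positivity)]
    have := Real.exp_one_lt_d9
    linarith
  obtain ⟨L, hL⟩ : ∃ L : ℕ, L = ⌈1 / δ⌉₊ := ⟨_, rfl⟩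
  have hL1 : 1 / δ ≤ L := by rw [hL]; exact Nat.le_ceil _
  have hL2 : (L : ℝ) ≤ 1 / δ + 1 := by rw [hL]; exact (Nat.ceil_lt_add_one (by positivity)).le
  have hLr : (2 : ℝ) ≤ L := by linarith
  have hL2' : 2 ≤ L := by exact_mod_cast hLr
  have hlog1 : lam ≤ Real.log L := by
    rw [hlam]
    exact Real.log_le_log (by positivity) hL1
  have hlog2 : Real.log L ≤ 2 * lam := by
    have h1 : (L : ℝ) ≤ (1 / δ) ^ 2 := by nlinarith
    calc Real.log L ≤ Real.log ((1 / δ) ^ 2) := Real.log_le_log (by positivity) h1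
      _ = 2 * lam := by rw [Real.log_pow, hlam]; norm_num
  have hZ : ENNReal.ofReal (δ ^ C0) ≤ Z D p q := by
    refine h δ hδ ?_ D p q hp hq ?_ ?_ hKD hHp hHq
    · exact (mul_le_mul_of_nonneg_right hCC0 hδ.le).trans hCδ
    · exact (mul_le_mul_of_nonneg_right hCC0 (norm_nonneg _)).trans hpa
    · exact (mul_le_mul_of_nonneg_right hCC0 (norm_nonneg _)).trans hqb
  have hcoord : ∀ v ∈ D, |v.1| ≤ (m * L : ℕ) ∧ |v.2| ≤ (m * L : ℕ) := by
    intro v hv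
    have h1 := hDM v hv
    rw [norm_mul, Complex.norm_real, Real.norm_eq_abs, abs_of_pos hδ] at h1
    have h2 : ‖emb v‖ ≤ |M| * L := by
      have h3 : ‖emb v‖ ≤ |M| * (1 / δ) := by
        rw [mul_one_div, le_div_iff₀ hδ]
        linarith [le_abs_self M]
      exact h3.trans (by gcongr)
    obtain ⟨h3, h4⟩ := coord_le hL2' h2
    rw [abs_abs] at h3 h4
    have h5 : (2 * |M| + 1) * (L : ℝ) ≤ m * L := by gcongr
    have h6 := h3.trans h5
    have h7 := h4.trans h5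
    constructor
    · exact_mod_cast h6
    · exact_mod_cast h7
  obtain ⟨s', hs'⟩ : ∃ s' : ℕ, s' = s + C0 := ⟨_, rfl⟩
  have hs'r : (s' : ℝ) = s + C0 := by rw [hs']; push_cast; ring
  have h1 := hall L s' hL2' (by omega) D hcoord p q
  have hk1 : lam ^ 2 ≤ Real.log L ^ 2 := by gcongr
  have hk2 : Real.log L ^ 2 ≤ 4 * lam ^ 2 := by
    calc Real.log L ^ 2 ≤ (2 * lam) ^ 2 := by gcongr
      _ = _ := by ring
  have hC0r : (0 : ℝ) ≤ C0 := by positivity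
  have hs'pos : (0 : ℝ) < s' := by rw [hs'r]; linarith
  have hw : C1 * s' * Real.log L ^ 2 ≤ C * s * Real.log (1 / δ) ^ 2 := by
    rw [← hlam]
    have h2 : (s' : ℝ) ≤ (1 + C0) * s := by rw [hs'r]; nlinarith
    calc C1 * s' * Real.log L ^ 2 ≤ C1 * ((1 + C0) * s) * (4 * lam ^ 2) := by gcongr
      _ = (4 * C1 * (1 + C0)) * (s * lam ^ 2) := by ring
      _ ≤ C * (s * lam ^ 2) := by gcongr
      _ = C * s * lam ^ 2 := by ring
  have hw0 : 0 < C1 * s' * Real.log L ^ 2 := by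
    have : 0 < Real.log L := by linarith
    positivity
  have h2 : ZE D p q (UEv (C * s * Real.log (1 / δ) ^ 2)) ≤
      ENNReal.ofReal (Real.exp (-(s' * Real.log L ^ 2))) :=
    (ZE_mono fun l _ hl => UEv_mono hw0 hw hl).trans h1
  unfold Prob
  refine ENNReal.div_le_of_le_mul (h2.trans ?_)
  calc ENNReal.ofReal (Real.exp (-(s' * Real.log L ^ 2))) ≤
      ENNReal.ofReal (Real.exp (-(s * Real.log (1 / δ) ^ 2)) * δ ^ C0) := by
        apply ENNReal.ofReal_le_ofReal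
        have e1 : δ ^ C0 = Real.exp (-(C0 * lam)) := by
          rw [hlam, one_div, Real.log_inv, mul_neg, neg_neg, ← Real.log_pow, Real.exp_log (by
            positivity)]
        rw [e1, ← Real.exp_add, ← hlam]
        apply Real.exp_le_exp.2
        have h5 : (C0 : ℝ) * lam ≤ C0 * lam ^ 2 := by
          apply mul_le_mul_of_nonneg_left _ hC0r
          nlinarith
        have h6 : (s' : ℝ) * lam ^ 2 ≤ s' * Real.log L ^ 2 := by gcongr
        rw [hs'r] at h6 ⊢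
        nlinarith
    _ = ENNReal.ofReal (Real.exp (-(s * Real.log (1 / δ) ^ 2))) * ENNReal.ofReal (δ ^ C0) :=
        ENNReal.ofReal_mul (Real.exp_pos _).le
    _ ≤ ENNReal.ofReal (Real.exp (-(s * Real.log (1 / δ) ^ 2))) * Z D p q := by gcongr

end Pool.Agent.V11324.NS
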