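import Pool.Agent.V11324.NS.Main

/-! **Theorem.** The critical self-avoiding walk has no straight piece in the bulk. -/

set_option autoImplicit false

namespace Pool.Agent.V11324.NS

open Pool.Agent.W832.HR
open H978R2.Hex (V)
open scoped ENNReal

theorem coord_le {M : ℝ} {L : ℕ} (hL : 2 ≤ L) {v : V} (h : ‖emb v‖ ≤ M * L) :
    |(v.1 : ℝ)| ≤ (2 * |M| + 1) * L ∧ |(v.2 : ℝ)| ≤ (2 * |M| + 1) * L := by
  have hLr : (2 : ℝ) ≤ L := by exact_mod_cast hL
  have h0 : M * L ≤ |M| * L := by gcongr; exact le_abs_self M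
  have hM := abs_nonneg M
  have h1 := (Complex.abs_re_le_norm (emb v)).trans (h.trans h0)
  have h2 := (Complex.abs_im_le_norm (emb v)).trans (h.trans h0)
  unfold emb at h1 h2
  simp only at h1 h2
  have h3 := s3_low
  constructor
  · rw [abs_mul, abs_of_nonneg (by positivity)] at h1
    have h4 : (17 / 10) / 2 * |(v.1 : ℝ)| ≤ Real.sqrt 3 / 2 * |(v.1 : ℝ)| := by gcongr
    nlinarith [abs_nonneg (v.1 : ℝ)]
  · rw [abs_le] at h2 ⊢
    split_ifs at h2 <;> constructor <;> nlinarith [h2.1, h2.2]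

theorem log_bd {m L : ℕ} (hm : 1 ≤ m) (hL : 2 ≤ L) :
    Real.log (3 * m * L) ≤ (4 * Real.log (3 * m) + 2) * Real.log L ^ 2 := by
  have hLr : (2 : ℝ) ≤ L := by exact_mod_cast hL
  have hmr : (1 : ℝ) ≤ m := by exact_mod_cast hm
  have hl := log_ge hL
  rw [Real.log_mul (by positivity) (by positivity)]
  have h1 : 0 ≤ Real.log (3 * m) := Real.log_nonneg (by linarith)
  nlinarith [mul_nonneg h1 (by nlinarith : 0 ≤ Real.log L ^ 2 - 1 / 4)]

/-- **upward crossings** -/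
theorem up_le (M : ℝ) : ∃ C : ℝ, 0 < C ∧ ∀ L s : ℕ, 2 ≤ L → 1 ≤ s → ∀ D : Set V,
    (∀ v ∈ D, ‖emb v‖ ≤ M * L) → ∀ p q : V,
    ZE D p q (UpS D (C * s * Real.log L ^ 2)) ≤
      ENNReal.ofReal (1 / 2 * Real.exp (-(s * Real.log L ^ 2))) * Z D p q := by
  classical
  obtain ⟨K0, hK0⟩ := Pool.Agent.TH303.HX2.gluing (2 * |M| + 1)
  obtain ⟨Cb, hCb1, hbulk⟩ := bulk
  obtain ⟨m0, hm0⟩ : ∃ m0 : ℕ, m0 = ⌈2 * |M| + 1⌉₊ := ⟨_, rfl⟩
  have hM := abs_nonneg M
  have hm0r : 2 * |M| + 1 ≤ m0 := by rw [hm0]; exact Nat.le_ceil _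
  have hm1 : 1 ≤ m0 := by
    have : (1 : ℝ) ≤ m0 := by linarith
    exact_mod_cast this
  have hCbr : (1 : ℝ) ≤ Cb := by exact_mod_cast hCb1
  obtain ⟨K, hK⟩ : ∃ K, K = |K0| := ⟨_, rfl⟩
  have hKn : 0 ≤ K := by rw [hK]; exact abs_nonneg _
  obtain ⟨c1, hc1⟩ : ∃ c1, c1 = 4 * Real.log (3 * m0) + 2 := ⟨_, rfl⟩
  have hc1n : 0 ≤ c1 := by
    have h1 : 0 ≤ Real.log (3 * m0) := Real.log_nonneg (by
      have : (1 : ℝ) ≤ m0 := by exact_mod_cast hm1
      linarith)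
    rw [hc1]
    linarith
  obtain ⟨G, hG⟩ : ∃ G, G = (4 + Cb) * c1 + 2 * K + 8 := ⟨_, rfl⟩
  have hGn : 0 ≤ G := by rw [hG]; positivity
  obtain ⟨C, hC⟩ : ∃ C, C = 4 * (32 * (1 + G) + 448) + 20 * Cb := ⟨_, rfl⟩
  have hCpos : 0 < C := by rw [hC]; positivity
  refine ⟨C, hCpos, ?_⟩
  intro L s hL hs D hD p q
  have hlog := log_ge hL
  have hLr : (2 : ℝ) ≤ L := by exact_mod_cast hL
  have hsr : (1 : ℝ) ≤ s := by exact_mod_cast hs
  obtain ⟨k2, hk⟩ : ∃ k2, k2 = Real.log L ^ 2 := ⟨_, rfl⟩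
  have hk4 : 1 / 4 ≤ k2 := by rw [hk]; nlinarith
  have hsk : k2 ≤ s * k2 := by nlinarith
  obtain ⟨w, hw⟩ : ∃ w, w = C * s * Real.log L ^ 2 := ⟨_, rfl⟩
  have hwl : w = C * (s * k2) := by rw [hw, hk]; ring
  have hw4 : C / 4 ≤ w := by
    rw [hwl]
    nlinarith
  have hwpos : 0 < w := by linarith
  obtain ⟨A, hA⟩ : ∃ A, A = (s + G) * k2 := ⟨_, rfl⟩
  have hApos : 0 < A := by rw [hA]; positivity
  have hg : ∀ a v b : V, Z D a v * Z D v b ≤
      ENNReal.ofReal (Real.exp (K * Real.log L ^ 2)) * Z D a b := by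
    intro a v b
    refine (hK0 L hL D (fun v hv => coord_le hL (hD v hv)) a v b).trans ?_
    refine mul_le_mul' (ENNReal.ofReal_le_ofReal (Real.exp_le_exp.2 ?_)) (le_of_eq rfl)
    rw [hK]
    gcongr
    exact le_abs_self _
  -- the finite set of end points
  obtain ⟨n, hn⟩ : ∃ n : ℤ, n = m0 * L := ⟨_, rfl⟩
  have hnr : (n : ℝ) = m0 * L := by rw [hn]; push_cast; ring
  have hn0 : 0 ≤ n := by rw [hn]; positivity
  obtain ⟨F, hF⟩ : ∃ F : Finset V, F = Finset.Icc (-n) n ×ˢ Finset.Icc (-n) n := ⟨_, rfl⟩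
  have hFD : ∀ v ∈ D, v ∈ F := by
    intro v hv
    obtain ⟨h1, h2⟩ := coord_le hL (hD v hv)
    have h3 : (2 * |M| + 1) * L ≤ (n : ℝ) := by rw [hnr]; gcongr
    have h4 := h1.trans h3
    have h5 := h2.trans h3
    rw [abs_le] at h4 h5
    rw [hF, Finset.mem_product, Finset.mem_Icc, Finset.mem_Icc]
    refine ⟨⟨?_, ?_⟩, ?_, ?_⟩
    · exact_mod_cast h4.1
    · exact_mod_cast h4.2
    · exact_mod_cast h5.1
    · exact_mod_cast h5.2
  obtain ⟨N, hN⟩ : ∃ N : ℝ, N = 3 * m0 * L := ⟨_, rfl⟩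
  have hm0r1 : (1 : ℝ) ≤ m0 := by exact_mod_cast hm1
  have hNpos : 0 < N := by rw [hN]; positivity
  have hn1 : 2 * (n : ℝ) + 1 ≤ N := by
    rw [hnr, hN]
    nlinarith
  have hFc : ((F ×ˢ F).card : ℝ) ≤ N ^ 4 := by
    rw [Finset.card_product, hF, Finset.card_product, Int.card_Icc]
    have e1 : (((n + 1 - -n).toNat : ℕ) : ℝ) = 2 * n + 1 := by
      have : (((n + 1 - -n).toNat : ℕ) : ℤ) = 2 * n + 1 := by
        rw [Int.toNat_of_nonneg (by omega)]
        ring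
      exact_mod_cast this
    push_cast
    rw [e1]
    have e2 : (2 * (n : ℝ) + 1) * (2 * n + 1) * ((2 * n + 1) * (2 * n + 1)) = (2 * n + 1) ^ 4 := by
      ring
    rw [e2]
    have : (0 : ℝ) ≤ 2 * n + 1 := by
      have : (0 : ℝ) ≤ n := by exact_mod_cast hn0
      linarith
    gcongr
  -- the events
  obtain ⟨Ev, hEv⟩ : ∃ Ev : V × V → List V → Prop, Ev = fun (xy : V × V) (l : List V) => ∃ T : ℕ, 2 ≤ T ∧ (T : ℝ) ≤ N ∧
      Odd (xy.1.1 + xy.1.2) ∧ xy.2.1 - xy.2.2 = xy.1.1 - xy.1.2 + 2 * (T : ℤ) - 1 ∧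
      ENNReal.ofReal ((1 / (T : ℝ)) ^ Cb) ≤ Z D xy.1 xy.2 ∧
      ∃ l1 m l2, l = l1 ++ m ++ l2 ∧ m.head? = some xy.1 ∧ m.getLast? = some xy.2 ∧
        ((∀ v ∈ m, xy.1.1 - xy.1.2 ≤ v.1 - v.2 ∧ v.1 - v.2 ≤ xy.1.1 - xy.1.2 + 2 * (T : ℤ) - 1) ∧
          Wid m (4 * (T / w))) := ⟨_, rfl⟩
  obtain ⟨Bd', hBd⟩ : ∃ B : ℝ≥0∞, B = 2 * ENNReal.ofReal (N ^ Cb *
      Real.exp (-A + 2 * (K * Real.log L ^ 2))) * Z D p q := ⟨_, rfl⟩
  have hc32 : 4 / w ≤ 1 / (32 * A + 112) := by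
    rw [div_le_div_iff₀ hwpos (by positivity)]
    have h1 : 32 * A + 112 ≤ (32 * (1 + G) + 448) * (s * k2) := by
      have h2 : A ≤ (1 + G) * (s * k2) := by
        rw [hA]
        nlinarith [mul_nonneg hGn (by linarith : 0 ≤ s * k2 - k2)]
      nlinarith
    have h3 : 4 * ((32 * (1 + G) + 448) * (s * k2)) ≤ w := by
      rw [hwl, hC]
      have : 0 ≤ s * k2 := by positivity
      nlinarith
    nlinarith
  have hpair : ∀ xy ∈ F ×ˢ F, ZE D p q (Ev xy) ≤ Bd' := by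
    rintro ⟨x, y⟩ -
    by_cases hex : ∃ T : ℕ, 2 ≤ T ∧ (T : ℝ) ≤ N ∧ Odd (x.1 + x.2) ∧
        y.1 - y.2 = x.1 - x.2 + 2 * T - 1 ∧ ENNReal.ofReal ((1 / (T : ℝ)) ^ Cb) ≤ Z D x y
    · obtain ⟨T, hT2, hTN, hx, hy, hZ⟩ := hex
      have h1 := pair_le hg hT2 hApos p q x y hx hy (c := 4 * (T / w)) (by
        have e1 : 4 * ((T : ℝ) / w) = 4 / w * T := by ring
        rw [e1]
        gcongr) hZ
      refine le_trans (ZE_mono fun l _ h => ?_) (h1.trans ?_)
      · rw [hEv] at h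
        obtain ⟨T', h2, h3, h4, h5, h6, h7⟩ := h
        simp only at h5 h7
        have e1 : T' = T := by omega
        subst e1
        exact h7
      · rw [hBd]
        gcongr
    · refine le_trans (le_of_eq ?_) zero_le
      rw [ZE_ind, ENNReal.tsum_eq_zero]
      intro l
      apply Set.indicator_of_notMem
      rintro ⟨-, h⟩
      rw [hEv] at h
      obtain ⟨T', h2, h3, h4, h5, h6, h7⟩ := h
      exact hex ⟨T', h2, h3, h4, h5, h6⟩
  have hsum : ZE D p q (UpS D w) ≤ ((F ×ˢ F).card : ℝ≥0∞) * Bd' := by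
    refine le_trans (ZE_mono fun l hl h => ?_) ((ZE_exists (F ×ˢ F) D p q Ev).trans ?_)
    · obtain ⟨T, x, l1, m, l2, hT1, hlm, hcr, hball, hwd⟩ := h
      have hch : m.IsChain Nbr := by
        have h4 := hl.2.2.2.1
        rw [hlm, List.append_assoc] at h4
        exact h4.right_of_append.left_of_append
      have hmD : ∀ v ∈ m, v ∈ D := by
        intro v hv
        apply hl.2.2.2.2
        rw [hlm]
        simp [hv]
      have hcw := cross_width hT1 hch hcr hwd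
      have hwid := width_wid hcw hwd
      obtain ⟨h1, h2, h3, y, h4, h5⟩ := hcr
      have hxm : x ∈ m := List.mem_of_mem_head? (by rw [h1]; rfl)
      have hym : y ∈ m := List.mem_of_mem_getLast? (by rw [h4]; rfl)
      have hxD := hFD x (hmD x hxm)
      have hyD := hFD y (hmD y hym)
      refine ⟨(x, y), Finset.mem_product.2 ⟨hxD, hyD⟩, ?_⟩
      have hTw : 17 / 20 * w ≤ T := by
        have h6 : 17 / 20 ≤ (T : ℝ) / w := by
          have := s3_low
          linarith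
        rw [le_div_iff₀ hwpos] at h6
        exact h6
      have hCw : 5 * (Cb : ℝ) ≤ w := by
        rw [hC] at hw4
        nlinarith
      have hTCb : (Cb : ℝ) ≤ T := by nlinarith
      have hC448 : (448 : ℝ) ≤ w := by
        rw [hC] at hw4
        nlinarith
      have hT2 : (2 : ℝ) ≤ T := by linarith
      have hT2' : 2 ≤ T := by exact_mod_cast hT2
      have hTN : (T : ℝ) ≤ N := by
        rw [hF, Finset.mem_product, Finset.mem_Icc, Finset.mem_Icc] at hxD hyD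
        have h6 : 2 * (T : ℤ) - 1 ≤ 4 * n := by omega
        have h7 : 2 * (T : ℝ) - 1 ≤ 4 * n := by exact_mod_cast h6
        linarith
      rw [hEv]
      refine ⟨T, hT2', hTN, h2, h5, ?_, l1, m, l2, hlm, h1, h4, h3, hwid⟩
      refine hbulk T D x y (by exact_mod_cast hTCb) h2 h5 ?_ hball
      -- lateral distance
      have h6 := hwid y hym x hxm
      have h7 := hwid x hxm y hym
      push_cast at h6 h7
      have h8 : |((y.1 + 3 * y.2 : ℤ) : ℝ) - ((x.1 + 3 * x.2 : ℤ) : ℝ)| ≤ 4 * (T / w) := by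
        rw [abs_le]
        push_cast
        constructor <;> linarith
      calc (Cb : ℝ) * |((y.1 + 3 * y.2 : ℤ) : ℝ) - ((x.1 + 3 * x.2 : ℤ) : ℝ)| ≤
          Cb * (4 * (T / w)) := by gcongr
        _ = (4 * Cb / w) * T := by ring
        _ ≤ 1 * T := by
            gcongr
            rw [div_le_one hwpos]
            linarith
        _ = T := one_mul _
    · refine (Finset.sum_le_card_nsmul _ _ _ hpair).trans (le_of_eq ?_)
      rw [nsmul_eq_mul]
  rw [hw] at hsum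
  refine hsum.trans ?_
  rw [hBd]
  have e1 : ((F ×ˢ F).card : ℝ≥0∞) = ENNReal.ofReal ((F ×ˢ F).card : ℝ) := by
    rw [ENNReal.ofReal_natCast]
  have e2 : (2 : ℝ≥0∞) = ENNReal.ofReal 2 := by simp
  rw [e1, e2, ← mul_assoc, ← mul_assoc, ← ENNReal.ofReal_mul (by positivity),
    ← ENNReal.ofReal_mul (by positivity)]
  refine mul_le_mul' (ENNReal.ofReal_le_ofReal ?_) le_rfl
  -- the numbers
  have hNexp : N ≤ Real.exp (c1 * k2) := by
    rw [← Real.log_le_iff_le_exp hNpos, hN, hc1, hk]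
    exact log_bd hm1 hL
  have h1 : ((F ×ˢ F).card : ℝ) * 2 * (N ^ Cb * Real.exp (-A + 2 * (K * Real.log L ^ 2))) ≤
      N ^ (4 + Cb) * (2 * Real.exp (-A + 2 * (K * Real.log L ^ 2))) := by
    rw [pow_add]
    have : 0 ≤ N ^ Cb * Real.exp (-A + 2 * (K * Real.log L ^ 2)) := by positivity
    calc ((F ×ˢ F).card : ℝ) * 2 * (N ^ Cb * Real.exp (-A + 2 * (K * Real.log L ^ 2))) ≤
        N ^ 4 * 2 * (N ^ Cb * Real.exp (-A + 2 * (K * Real.log L ^ 2))) := by gcongr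
      _ = _ := by ring
  refine h1.trans ?_
  have h2 : N ^ (4 + Cb) ≤ Real.exp ((4 + Cb) * c1 * k2) := by
    calc N ^ (4 + Cb) ≤ Real.exp (c1 * k2) ^ (4 + Cb) := pow_le_pow_left₀ hNpos.le hNexp _
      _ = _ := by
          rw [← Real.exp_nat_mul]
          congr 1
          push_cast
          ring
  have h3 : 4 ≤ Real.exp (8 * k2) := by
    have h4 := Real.add_one_le_exp (2 : ℝ)
    have h5 : Real.exp 2 ≤ Real.exp (8 * k2) := Real.exp_le_exp.2 (by linarith)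
    have h6 : Real.exp 2 = Real.exp 1 * Real.exp 1 := by rw [← Real.exp_add]; norm_num
    have h7 := Real.exp_one_gt_d9
    nlinarith
  have h4 : N ^ (4 + Cb) * (2 * Real.exp (-A + 2 * (K * Real.log L ^ 2))) ≤
      Real.exp ((4 + Cb) * c1 * k2) * (1 / 2 * Real.exp (8 * k2) *
        Real.exp (-A + 2 * (K * Real.log L ^ 2))) := by
    gcongr
    linarith
  refine h4.trans (le_of_eq ?_)
  have e5 : Real.exp ((4 + Cb) * c1 * k2) * (1 / 2 * Real.exp (8 * k2) *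
        Real.exp (-A + 2 * (K * Real.log L ^ 2))) = 1 / 2 * (Real.exp ((4 + Cb) * c1 * k2) *
        Real.exp (8 * k2) * Real.exp (-A + 2 * (K * Real.log L ^ 2))) := by ring
  rw [e5, ← Real.exp_add, ← Real.exp_add, ← hk, hA, hG]
  congr 2
  ring

/-- the probability of an event under the critical measure -/
noncomputable def Prob (D : Set V) (p q : V) (E : List V → Prop) : ℝ≥0∞ := ZE D p q E / Z D p q

/-- **Theorem.** -/
theorem main (M : ℝ) : ∃ C : ℝ, 0 < C ∧ ∀ L s : ℕ, 2 ≤ L → 1 ≤ s → ∀ D : Set V,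
    (∀ v ∈ D, ‖emb v‖ ≤ M * L) → ∀ p q : V,
    Prob D p q (Straight D (C * s * Real.log L ^ 2)) ≤
      ENNReal.ofReal (Real.exp (-(s * Real.log L ^ 2))) := by
  obtain ⟨C, hC, h⟩ := up_le M
  refine ⟨C, hC, fun L s hL hs D hD p q => ?_⟩
  have h1 := h L s hL hs D hD p q
  have h2 := h L s hL hs D hD q p
  have h3 : ZE D p q (Straight D (C * s * Real.log L ^ 2)) ≤
      ENNReal.ofReal (Real.exp (-(s * Real.log L ^ 2))) * Z D p q := by
    refine le_trans (ZE_mono fun l _ hl => straight_up hl) ((ZE_or D p q _ _).trans ?_)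
    have h4 := ZE_rev D p q (UpS D (C * s * Real.log L ^ 2))
    rw [Z_rev D q p] at h2
    refine (add_le_add h1 (h4.trans h2)).trans (le_of_eq ?_)
    rw [← add_mul, ← ENNReal.ofReal_add (by positivity) (by positivity)]
    congr 2
    ring
  unfold Prob
  exact ENNReal.div_le_of_le_mul h3

end Pool.Agent.V11324.NS
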