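import Pool.Agent.V11324.NS.Sum
import Pool.Agent.V11324.NS.Bulk

/-! Straight pieces of the critical self-avoiding walk on the honeycomb lattice. -/

set_option autoImplicit false

namespace Pool.Agent.V11324.NS

open Pool.Agent.W832.HR
open H978R2.Hex (V)
open scoped ENNReal

/-- the Euclidean coordinate orthogonal to the direction `dn` -/
noncomputable def lat (z : ℂ) : ℝ := (z.re + Real.sqrt 3 * z.im) / 2

/-- the lateral width is at most `c` -/
def Width (m : List V) (c : ℝ) : Prop := ∀ p ∈ m, ∀ q ∈ m, lat (emb p) - lat (emb q) ≤ c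

/-- crossing of a slab with `2 T` levels, upwards, from `x` -/
def Crossing (T : ℕ) (x : V) (m : List V) : Prop :=
  m.head? = some x ∧ Odd (x.1 + x.2) ∧
    (∀ v ∈ m, x.1 - x.2 ≤ v.1 - v.2 ∧ v.1 - v.2 ≤ x.1 - x.2 + 2 * T - 1) ∧
    ∃ y, m.getLast? = some y ∧ y.1 - y.2 = x.1 - x.2 + 2 * T - 1

/-- a straight piece, crossed upwards -/
def UpS (D : Set V) (w : ℝ) (l : List V) : Prop :=
  ∃ (T : ℕ) (x : V) (l₁ m l₂ : List V), 1 ≤ T ∧ l = l₁ ++ m ++ l₂ ∧ Crossing T x m ∧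
    (∀ v, ‖emb v - emb x‖ ≤ 10 * T → v ∈ D) ∧ Width m (T / w)

/-- a straight piece -/
def Straight (D : Set V) (w : ℝ) (l : List V) : Prop :=
  ∃ (T : ℕ) (x : V) (l₁ m l₂ : List V), 1 ≤ T ∧ l = l₁ ++ m ++ l₂ ∧
    (Crossing T x m ∨ Crossing T x m.reverse) ∧
    (∀ v, ‖emb v - emb x‖ ≤ 10 * T → v ∈ D) ∧ Width m (T / w)

theorem lat_emb (v : V) : lat (emb v) = Real.sqrt 3 / 4 * ((v.1 + 3 * v.2 : ℤ) +
    (if Even (v.1 + v.2) then 1 else 0)) := by
  unfold lat emb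
  simp only
  push_cast
  split_ifs <;> ring

theorem straight_up {D : Set V} {w : ℝ} {l : List V} (h : Straight D w l) :
    UpS D w l ∨ UpS D w l.reverse := by
  obtain ⟨T, x, l1, m, l2, hT, hl, hc, hb, hw⟩ := h
  rcases hc with hc | hc
  · exact Or.inl ⟨T, x, l1, m, l2, hT, hl, hc, hb, hw⟩
  · refine Or.inr ⟨T, x, l2.reverse, m.reverse, l1.reverse, hT, ?_, hc, hb, ?_⟩
    · rw [hl]
      simp
    · intro p hp q hq
      exact hw p (List.mem_reverse.1 hp) q (List.mem_reverse.1 hq)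

theorem s3_low : (17 : ℝ) / 10 ≤ Real.sqrt 3 := by
  rw [Real.le_sqrt' (by norm_num)]
  norm_num

theorem cross_width {T : ℕ} {x : V} {m : List V} {c : ℝ} (hT : 1 ≤ T) (hch : m.IsChain Nbr)
    (hc : Crossing T x m) (hw : Width m c) : Real.sqrt 3 / 2 ≤ c := by
  obtain ⟨h1, h2, h3, y, h4, h5⟩ := hc
  match m, h1, h4, h3, hch, hw with
  | [], h1, _, _, _, _ => simp at h1
  | [a], h1, h4, _, _, _ =>
    simp only [List.head?_cons, Option.some.injEq] at h1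
    simp only [List.getLast?_singleton, Option.some.injEq] at h4
    subst h1
    subst h4
    omega
  | a :: v :: r, h1, h4, h3, hch, hw =>
    simp only [List.head?_cons, Option.some.injEq] at h1
    subst h1
    have h6 : Nbr a v := by
      rw [List.isChain_cons_cons] at hch
      exact hch.1
    have h7 := (h3 v (by simp)).1
    have ha : ¬ Even (a.1 + a.2) := Int.not_even_iff_odd.2 h2
    rw [Int.odd_iff] at h2
    have h8 := hw a (by simp) v (by simp)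
    have h9 := hw v (by simp) a (by simp)
    rw [lat_emb, lat_emb, if_neg ha] at h8 h9
    rcases h6 with ⟨e1, e2 | e2⟩ | ⟨e1, ⟨e2, e3⟩ | ⟨e2, e3⟩⟩
    · omega
    · have hv : Even (v.1 + v.2) := by rw [Int.even_iff]; omega
      rw [if_pos hv] at h8 h9
      have e4 : v.1 + 3 * v.2 = a.1 + 3 * a.2 + 1 := by omega
      rw [e4] at h9
      push_cast at h9
      linarith
    · exact absurd e3 ha
    · rw [if_pos e3] at h8 h9
      have e4 : v.1 + 3 * v.2 = a.1 + 3 * a.2 - 3 := by omega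
      rw [e4] at h8
      push_cast at h8
      linarith

theorem width_wid {m : List V} {c : ℝ} (hc : Real.sqrt 3 / 2 ≤ c) (hw : Width m c) :
    Wid m (4 * c) := by
  intro p hp q hq
  have h1 := hw p hp q hq
  rw [lat_emb, lat_emb] at h1
  have h2 := s3_low
  have h3 : Real.sqrt 3 / 4 * (((p.1 + 3 * p.2 : ℤ) : ℝ) - ((q.1 + 3 * q.2 : ℤ) : ℝ) - 1) ≤ c := by
    have h4 := s3_nonneg
    split_ifs at h1 <;> linarith
  have h5 : ((p.1 + 3 * p.2 - (q.1 + 3 * q.2) : ℤ) : ℝ) =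
      ((p.1 + 3 * p.2 : ℤ) : ℝ) - ((q.1 + 3 * q.2 : ℤ) : ℝ) := by push_cast; ring
  rw [h5]
  by_contra hcon
  push Not at hcon
  have h8 : Real.sqrt 3 / 4 * (4 * c - 1) <
      Real.sqrt 3 / 4 * (((p.1 + 3 * p.2 : ℤ) : ℝ) - ((q.1 + 3 * q.2 : ℤ) : ℝ) - 1) := by
    apply mul_lt_mul_of_pos_left _ (by linarith)
    linarith
  have h9 : Real.sqrt 3 / 4 * (4 * c - 1) < c := lt_of_lt_of_le h8 h3
  have hc0 : 0 < c := by linarith
  have h10 : 17 / 10 * c ≤ Real.sqrt 3 * c := mul_le_mul_of_nonneg_right h2 hc0.le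
  linarith

/-- the bound for one pair of end points -/
theorem pair_le {K : ℝ} {L : ℕ} {D : Set V}
    (hg : ∀ a v b : V, Z D a v * Z D v b ≤
      ENNReal.ofReal (Real.exp (K * Real.log L ^ 2)) * Z D a b)
    {T : ℕ} (hT : 2 ≤ T) {A : ℝ} (hA : 0 < A) (p q x y : V) (hx : Odd (x.1 + x.2))
    (hy : y.1 - y.2 = x.1 - x.2 + 2 * T - 1) {c : ℝ} (hc : c ≤ 1 / (32 * A + 112) * T) {C : ℕ}
    (hZ : ENNReal.ofReal ((1 / (T : ℝ)) ^ C) ≤ Z D x y) :
    ZE D p q (fun l => ∃ l1 m l2, l = l1 ++ m ++ l2 ∧ m.head? = some x ∧ m.getLast? = some y ∧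
      ((∀ v ∈ m, x.1 - x.2 ≤ v.1 - v.2 ∧ v.1 - v.2 ≤ x.1 - x.2 + 2 * T - 1) ∧ Wid m c)) ≤
      2 * ENNReal.ofReal ((T : ℝ) ^ C * Real.exp (-A + 2 * (K * Real.log L ^ 2))) * Z D p q := by
  have hT0 : (0 : ℝ) < T := by
    have : (2 : ℝ) ≤ T := by exact_mod_cast hT
    linarith
  have h1 := ZE_piece D p q x y (fun m => (∀ v ∈ m, x.1 - x.2 ≤ v.1 - v.2 ∧
    v.1 - v.2 ≤ x.1 - x.2 + 2 * T - 1) ∧ Wid m c)
  have h2 := thin_le hT hA D x y hx hy hc
  have h3 : 1 ≤ ENNReal.ofReal ((T : ℝ) ^ C) * Z D x y := by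
    calc (1 : ℝ≥0∞) = ENNReal.ofReal ((T : ℝ) ^ C) * ENNReal.ofReal ((1 / (T : ℝ)) ^ C) := by
          rw [← ENNReal.ofReal_mul (by positivity), ← mul_pow, mul_one_div, div_self hT0.ne',
            one_pow, ENNReal.ofReal_one]
      _ ≤ _ := mul_le_mul_right hZ _
  obtain ⟨g, hgd⟩ : ∃ g, g = ENNReal.ofReal (Real.exp (K * Real.log L ^ 2)) := ⟨_, rfl⟩
  rw [← hgd] at hg
  have e1 : ENNReal.ofReal ((T : ℝ) ^ C * Real.exp (-A + 2 * (K * Real.log L ^ 2))) =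
      ENNReal.ofReal ((T : ℝ) ^ C) * (ENNReal.ofReal (Real.exp (-A)) * (g * g)) := by
    rw [ENNReal.ofReal_mul (by positivity), Real.exp_add, ENNReal.ofReal_mul (Real.exp_pos _).le,
      two_mul, Real.exp_add, ENNReal.ofReal_mul (Real.exp_pos _).le, hgd]
  rw [e1]
  refine h1.trans ?_
  calc Z D p x * (ZE D x y (fun m => (∀ v ∈ m, x.1 - x.2 ≤ v.1 - v.2 ∧
        v.1 - v.2 ≤ x.1 - x.2 + 2 * T - 1) ∧ Wid m c) * Z D y q)
      ≤ Z D p x * (2 * ENNReal.ofReal (Real.exp (-A)) * Z D y q) := by gcongr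
    _ = 2 * ENNReal.ofReal (Real.exp (-A)) * (Z D p x * Z D y q * 1) := by ring
    _ ≤ 2 * ENNReal.ofReal (Real.exp (-A)) * (Z D p x * Z D y q *
        (ENNReal.ofReal ((T : ℝ) ^ C) * Z D x y)) := by gcongr
    _ = 2 * ENNReal.ofReal (Real.exp (-A)) * ENNReal.ofReal ((T : ℝ) ^ C) *
        ((Z D p x * Z D x y) * Z D y q) := by ring
    _ ≤ 2 * ENNReal.ofReal (Real.exp (-A)) * ENNReal.ofReal ((T : ℝ) ^ C) *
        ((g * Z D p y) * Z D y q) := mul_le_mul' le_rfl (mul_le_mul' (hg p x y) le_rfl)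
    _ = 2 * ENNReal.ofReal (Real.exp (-A)) * ENNReal.ofReal ((T : ℝ) ^ C) *
        (g * (Z D p y * Z D y q)) := by ring
    _ ≤ 2 * ENNReal.ofReal (Real.exp (-A)) * ENNReal.ofReal ((T : ℝ) ^ C) *
        (g * (g * Z D p q)) := mul_le_mul' le_rfl (mul_le_mul' le_rfl (hg p y q))
    _ = _ := by ring

end Pool.Agent.V11324.NS
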