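import Pool.Agent.V11324.NS.Step

/-! The three edge directions and the rotation by `120` degrees. -/

set_option autoImplicit false

namespace Pool.Agent.V11324.NS

open Pool.Agent.W832.HR
open H978R2.Hex (V)
open scoped ENNReal

/-- the height in the direction `e` -/
noncomputable def ht (e : ℂ) (v : V) : ℝ := ((starRingEnd ℂ) e * emb v).re

/-- the coordinate orthogonal to the direction `e` -/
noncomputable def lt (e : ℂ) (v : V) : ℝ := ((starRingEnd ℂ) e * emb v).im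

noncomputable def e0 : ℂ := ⟨Real.sqrt 3 / 2, -1 / 2⟩
noncomputable def e1 : ℂ := ⟨0, 1⟩
noncomputable def e2 : ℂ := ⟨-(Real.sqrt 3 / 2), -1 / 2⟩

/-- `m` crosses a slab of height `H` orthogonal to `e` -/
def Cross (e : ℂ) (m : List V) (H : ℝ) : Prop :=
  ∃ x y : V, m.head? = some x ∧ m.getLast? = some y ∧ Odd (x.1 + x.2) ∧ Even (y.1 + y.2) ∧
    (∀ v ∈ m, ht e x ≤ ht e v ∧ ht e v ≤ ht e y) ∧ ht e y - ht e x = H

/-- the extent orthogonal to `e` -/
def Wd (e : ℂ) (m : List V) (c : ℝ) : Prop := ∀ p ∈ m, ∀ q ∈ m, lt e p - lt e q ≤ c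

/-- an uneven crossing in the direction `e` -/
def UnevenD (e : ℂ) (w : ℝ) (l : List V) : Prop :=
  ∃ (l₁ m l₂ : List V) (H : ℝ), l = l₁ ++ m ++ l₂ ∧ (Cross e m H ∨ Cross e m.reverse H) ∧
    1 ≤ H ∧ (Wd e m (H / w) ∨ ¬ Wd e m (w * H))

/-- the rotation by `120` degrees around the origin -/
def rot (v : V) : V :=
  if Even (v.1 + v.2) then (-((v.1 + 3 * v.2) / 2), (v.1 - v.2) / 2)
  else (-((v.1 + 3 * v.2 - 1) / 2), (v.1 - v.2 + 1) / 2)

theorem rot_even {v : V} (h : Even (v.1 + v.2)) : rot v = (-((v.1 + 3 * v.2) / 2), (v.1 - v.2) / 2) :=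
  if_pos h

theorem rot_odd {v : V} (h : ¬ Even (v.1 + v.2)) :
    rot v = (-((v.1 + 3 * v.2 - 1) / 2), (v.1 - v.2 + 1) / 2) := if_neg h

/-- coordinates of the image -/
theorem rot_spec (v : V) : 2 * (rot v).1 = -(v.1 + 3 * v.2) + (if Even (v.1 + v.2) then 0 else 1) ∧
    2 * (rot v).2 = v.1 - v.2 + (if Even (v.1 + v.2) then 0 else 1) ∧
    (Even ((rot v).1 + (rot v).2) ↔ Even (v.1 + v.2)) := by
  by_cases h : Even (v.1 + v.2)
  · rw [rot_even h, if_pos h]
    simp only [h, iff_true]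
    rw [Int.even_iff] at *
    omega
  · rw [rot_odd h, if_neg h]
    simp only [h, iff_false]
    rw [Int.even_iff] at *
    omega

theorem nbr_symm' {p q : V} (h : Nbr p q) : Nbr q p := by
  rcases h with ⟨h1, h2⟩ | ⟨h1, h2⟩
  · exact Or.inl ⟨h1.symm, h2.symm⟩
  · exact Or.inr ⟨h1.symm, h2.symm⟩

theorem rot_nbr_even {p q : V} (hp : Even (p.1 + p.2)) (h : Nbr p q) : Nbr (rot p) (rot q) := by
  obtain ⟨a1, a2, a3⟩ := rot_spec p
  obtain ⟨b1, b2, b3⟩ := rot_spec q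
  rw [if_pos hp] at a1 a2
  have hp' := a3.2 hp
  have hp2 := Int.even_iff.1 hp
  rcases h with ⟨h1, h2 | h2⟩ | ⟨h1, ⟨h2, h3⟩ | ⟨h2, h3⟩⟩
  · have hq : ¬ Even (q.1 + q.2) := by rw [Int.even_iff]; omega
    rw [if_neg hq] at b1 b2
    left
    exact ⟨by omega, Or.inr (by omega)⟩
  · have hq : ¬ Even (q.1 + q.2) := by rw [Int.even_iff]; omega
    rw [if_neg hq] at b1 b2
    right
    exact ⟨by omega, Or.inl ⟨by omega, hp'⟩⟩
  · have hq : ¬ Even (q.1 + q.2) := by rw [Int.even_iff]; omega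
    rw [if_neg hq] at b1 b2
    left
    exact ⟨by omega, Or.inl (by omega)⟩
  · exfalso
    rw [Int.even_iff] at h3
    omega

theorem rot_nbr {p q : V} (h : Nbr p q) : Nbr (rot p) (rot q) := by
  by_cases hp : Even (p.1 + p.2)
  · exact rot_nbr_even hp h
  · refine nbr_symm' (rot_nbr_even ?_ (nbr_symm' h))
    rw [Int.even_iff] at hp ⊢
    rcases h with ⟨h1, h2 | h2⟩ | ⟨h1, ⟨h2, h3⟩ | ⟨h2, h3⟩⟩
    · omega
    · omega
    · rw [Int.even_iff] at h3
      omega
    · rw [Int.even_iff] at h3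
      omega

theorem rot_inj : Function.Injective rot := by
  intro p q h
  obtain ⟨a1, a2, a3⟩ := rot_spec p
  obtain ⟨b1, b2, b3⟩ := rot_spec q
  rw [h] at a1 a2 a3
  have h4 : Even (p.1 + p.2) ↔ Even (q.1 + q.2) := a3.symm.trans b3
  by_cases hp : Even (p.1 + p.2)
  · rw [if_pos hp] at a1 a2
    rw [if_pos (h4.1 hp)] at b1 b2
    exact Prod.ext (by omega) (by omega)
  · rw [if_neg hp] at a1 a2
    rw [if_neg (fun h' => hp (h4.2 h'))] at b1 b2
    exact Prod.ext (by omega) (by omega)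

theorem rot_zero : rot (0, 0) = (0, 0) := by decide

theorem map_mem_WL {n : ℕ} {g : V → V} (hg : Function.Injective g)
    (hn : ∀ p q, Nbr p q → Nbr (g p) (g q)) (h0 : g (0, 0) = (0, 0)) {l : List V} (h : l ∈ WL n) :
    l.map g ∈ WL n := by
  obtain ⟨h1, h2, h3, h4⟩ := h
  refine ⟨by simpa using h1, ?_, h3.map hg, ?_⟩
  · rw [List.head?_map, h2, Option.map_some, h0]
  · rw [List.isChain_map]
    exact h4.imp fun {p q} hpq => hn p q hpq

theorem ncard_map_le {n : ℕ} {g : V → V} (hg : Function.Injective g)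
    (hn : ∀ p q, Nbr p q → Nbr (g p) (g q)) (h0 : g (0, 0) = (0, 0)) (hfin : (WL n).Finite)
    (E : List V → Prop) :
    {l | l ∈ WL n ∧ E (l.map g)}.ncard ≤ {l | l ∈ WL n ∧ E l}.ncard := by
  have hf : {l | l ∈ WL n ∧ E l}.Finite := hfin.subset fun l hl => hl.1
  refine Set.ncard_le_ncard_of_injOn (fun l : List V => l.map g) ?_ ?_ hf
  · rintro l ⟨h1, h2⟩
    exact ⟨map_mem_WL hg hn h0 h1, h2⟩
  · intro l _ l' _ e
    exact List.map_injective_iff.2 hg e

theorem ht_e0 (v : V) : ht e0 v = 3 / 4 * ((v.1 - v.2 : ℤ) : ℝ) -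
    (if Even (v.1 + v.2) then 1 / 4 else 0) := by
  have h : ht e0 v = lv (emb v) := by
    unfold ht e0 lv
    rw [Complex.mul_re, Complex.conj_re, Complex.conj_im]
    ring
  rw [h, lv_emb]
  push_cast
  rfl

theorem lt_e0 (v : V) : lt e0 v = lat (emb v) := by
  unfold lt e0 lat
  rw [Complex.mul_im, Complex.conj_re, Complex.conj_im]
  ring

theorem rot_real (v : V) : 2 * ((rot v).1 : ℝ) = -(v.1 + 3 * v.2) +
      (if Even (v.1 + v.2) then 0 else 1) ∧
    2 * ((rot v).2 : ℝ) = v.1 - v.2 + (if Even (v.1 + v.2) then 0 else 1) := by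
  obtain ⟨h1, h2, -⟩ := rot_spec v
  constructor
  · have : ((2 * (rot v).1 : ℤ) : ℝ) = ((-(v.1 + 3 * v.2) +
      (if Even (v.1 + v.2) then 0 else 1) : ℤ) : ℝ) := by rw [h1]
    push_cast at this
    exact this
  · have : ((2 * (rot v).2 : ℤ) : ℝ) = ((v.1 - v.2 +
      (if Even (v.1 + v.2) then 0 else 1) : ℤ) : ℝ) := by rw [h2]
    push_cast at this
    exact this

theorem ht_e2 (v : V) : ht e2 v = ht e0 (rot v) := by
  obtain ⟨h1, h2⟩ := rot_real v
  have h3 := (rot_spec v).2.2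
  rw [ht_e0]
  unfold ht e2 emb
  rw [Complex.mul_re, Complex.conj_re, Complex.conj_im]
  push_cast
  simp only [h3]
  split_ifs at h1 h2 ⊢
  · linear_combination (-(v.1 : ℝ) / 4) * s3 - 3 / 8 * h1 + 3 / 8 * h2
  · linear_combination (-(v.1 : ℝ) / 4) * s3 - 3 / 8 * h1 + 3 / 8 * h2

theorem lt_e2 (v : V) : lt e2 v = lt e0 (rot v) - Real.sqrt 3 / 2 := by
  obtain ⟨h1, h2⟩ := rot_real v
  have h3 := (rot_spec v).2.2
  rw [lt_e0, lat_emb]
  unfold lt e2 emb
  rw [Complex.mul_im, Complex.conj_re, Complex.conj_im]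
  push_cast
  simp only [h3]
  split_ifs at h1 h2 ⊢
  · linear_combination (-Real.sqrt 3 / 8) * h1 - 3 * Real.sqrt 3 / 8 * h2
  · linear_combination (-Real.sqrt 3 / 8) * h1 - 3 * Real.sqrt 3 / 8 * h2

theorem ht_e1 (v : V) : ht e1 v = ht e0 (rot (rot v)) + 3 / 4 := by
  obtain ⟨h1, h2⟩ := rot_real v
  have h3 := (rot_spec v).2.2
  rw [← ht_e2]
  unfold ht e1 e2 emb
  rw [Complex.mul_re, Complex.conj_re, Complex.conj_im, Complex.mul_re, Complex.conj_re,
    Complex.conj_im]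
  simp only [h3]
  split_ifs at h1 h2 ⊢
  · linear_combination (((rot v).1 : ℝ) / 4) * s3 + 3 / 8 * h1 + 3 / 8 * h2
  · linear_combination (((rot v).1 : ℝ) / 4) * s3 + 3 / 8 * h1 + 3 / 8 * h2

theorem lt_e1 (v : V) : lt e1 v = lt e0 (rot (rot v)) - Real.sqrt 3 / 4 := by
  obtain ⟨h1, h2⟩ := rot_real v
  have h3 := (rot_spec v).2.2
  have h4 := lt_e2 (rot v)
  have h5 : lt e1 v = lt e2 (rot v) + Real.sqrt 3 / 4 := by
    unfold lt e1 e2 emb
    rw [Complex.mul_im, Complex.conj_re, Complex.conj_im, Complex.mul_im, Complex.conj_re,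
      Complex.conj_im]
    simp only [h3]
    split_ifs at h1 h2 ⊢
    · linear_combination (-Real.sqrt 3 / 8) * h1 + 3 * Real.sqrt 3 / 8 * h2
    · linear_combination (-Real.sqrt 3 / 8) * h1 + 3 * Real.sqrt 3 / 8 * h2
  linarith

/-- transfer of the event to the direction `e0` -/
theorem uneven_map {e : ℂ} {g : V → V} {a b : ℝ} (hh : ∀ v, ht e v = ht e0 (g v) + a)
    (hl : ∀ v, lt e v = lt e0 (g v) + b) (hp : ∀ v, Even ((g v).1 + (g v).2) ↔ Even (v.1 + v.2))
    {w : ℝ} {l : List V} (h : UnevenD e w l) : UnevenD e0 w (l.map g) := by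
  have hc : ∀ (m : List V) (H : ℝ), Cross e m H → Cross e0 (m.map g) H := by
    rintro m H ⟨x, y, h1, h2, h3, h4, h5, h6⟩
    refine ⟨g x, g y, ?_, ?_, ?_, (hp y).2 h4, ?_, ?_⟩
    · rw [List.head?_map, h1, Option.map_some]
    · rw [List.getLast?_map, h2, Option.map_some]
    · rw [← Int.not_even_iff_odd, hp, Int.not_even_iff_odd]
      exact h3
    · intro v hv
      rw [List.mem_map] at hv
      obtain ⟨v', hv', rfl⟩ := hv
      have := h5 v' hv'
      rw [hh, hh, hh] at this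
      constructor <;> linarith [this.1, this.2]
    · rw [hh, hh] at h6
      linarith
  have hw : ∀ (m : List V) (c : ℝ), Wd e m c ↔ Wd e0 (m.map g) c := by
    intro m c
    constructor
    · intro h7 p hp q hq
      rw [List.mem_map] at hp hq
      obtain ⟨p', hp', rfl⟩ := hp
      obtain ⟨q', hq', rfl⟩ := hq
      have := h7 p' hp' q' hq'
      rw [hl, hl] at this
      linarith
    · intro h7 p hp q hq
      have := h7 (g p) (List.mem_map.2 ⟨p, hp, rfl⟩) (g q) (List.mem_map.2 ⟨q, hq, rfl⟩)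
      rw [hl, hl]
      linarith
  obtain ⟨l1, m, l2, H, h1, h2, h3, h4⟩ := h
  refine ⟨l1.map g, m.map g, l2.map g, H, by rw [h1]; simp, ?_, h3, ?_⟩
  · rcases h2 with h2 | h2
    · exact Or.inl (hc m H h2)
    · right
      rw [← List.map_reverse]
      exact hc _ H h2
  · rcases h4 with h4 | h4
    · exact Or.inl ((hw m _).1 h4)
    · exact Or.inr fun h5 => h4 ((hw m _).2 h5)

end Pool.Agent.V11324.NS
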