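import Pool.Agent.V11324.NS.Main

/-! Walks with a given number of steps: reduction to partition functions. -/

set_option autoImplicit false

namespace Pool.Agent.V11324.NS

open Pool.Agent.W832.HR
open H978R2.Hex (V)
open scoped ENNReal

/-- the self-avoiding walks with `n` steps from the origin, as lists of vertices -/
def WL (n : ℕ) : Set (List V) :=
  {l | l.length = n + 1 ∧ l.head? = some (0, 0) ∧ l.Nodup ∧ l.IsChain Nbr}

theorem WL_image (n : ℕ) : WL n = List.ofFn '' (Pool.Agent.H122R3.HX.walks n) := by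
  ext l
  constructor
  · rintro ⟨h1, h2, h3, h4⟩
    refine ⟨fun i : Fin (n + 1) => l[(i : ℕ)]'(by have := i.2; omega), ⟨?_, ?_, ?_⟩, ?_⟩
    · simp only [Fin.val_zero]
      cases l with
      | nil => simp at h1
      | cons a t => simpa using h2
    · intro i j hij
      simp only at hij
      exact Fin.ext ((List.Nodup.getElem_inj_iff h3).1 hij)
    · intro i
      simp only [Fin.val_castSucc, Fin.val_succ]
      exact List.isChain_iff_getElem.1 h4 i (by have := i.2; omega)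
    · apply List.ext_getElem
      · simp [h1]
      · intro k hk1 hk2
        rw [List.getElem_ofFn]
  · rintro ⟨ω, ⟨h1, h2, h3⟩, rfl⟩
    refine ⟨by simp, ?_, List.nodup_ofFn.2 h2, ?_⟩
    · rw [List.head?_eq_getElem?]
      simp [h1]
    · rw [List.isChain_iff_getElem]
      intro i hi
      rw [List.length_ofFn] at hi
      have := h3 ⟨i, by omega⟩
      rw [List.getElem_ofFn, List.getElem_ofFn]
      exact this

theorem WL_ncard (n : ℕ) : (WL n).ncard = Pool.Agent.H122R3.HX.c n := by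
  rw [WL_image, Set.ncard_image_of_injective _ List.ofFn_injective,
    Pool.Agent.H122R3.HX.ncard_walks]

theorem coord_step {n : ℕ} {l : List V} (h : l ∈ WL n) : ∀ v ∈ l, |v.1| ≤ n ∧ |v.2| ≤ n := by
  obtain ⟨h1, h2, -, h4⟩ := h
  have key : ∀ k : ℕ, ∀ hk : k < l.length, |l[k].1| ≤ k ∧ |l[k].2| ≤ k := by
    intro k
    induction k with
    | zero =>
      intro hk
      cases l with
      | nil => simp at hk
      | cons a t =>
        simp only [List.head?_cons, Option.some.injEq] at h2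
        simp [h2]
    | succ k ih =>
      intro hk
      have h5 := ih (by omega)
      have h6 := List.isChain_iff_getElem.1 h4 k hk
      rw [nbr_iff, H978R2.Hex.adj_iff] at h6
      rw [abs_le, abs_le] at h5 ⊢
      push_cast
      omega
  intro v hv
  obtain ⟨k, hk, rfl⟩ := List.getElem_of_mem hv
  have h5 := key k hk
  have : (k : ℤ) ≤ n := by omega
  omega

theorem count_le {n : ℕ} (E : List V → Prop) (D : Set V) (F : Finset V)
    (hD : ∀ l ∈ WL n, ∀ v ∈ l, v ∈ D) (hF : ∀ v ∈ D, v ∈ F) (hfin : (WL n).Finite) :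
    (({l | l ∈ WL n ∧ E l}.ncard : ℕ) : ℝ≥0∞) * xc ^ n ≤ ∑ q ∈ F, ZE D (0, 0) q E := by
  classical
  have hBf : {l | l ∈ WL n ∧ E l}.Finite := hfin.subset fun l hl => hl.1
  have e1 : (({l | l ∈ WL n ∧ E l}.ncard : ℕ) : ℝ≥0∞) * xc ^ n =
      ∑' l : {l | l ∈ WL n ∧ E l}, xc ^ (l.1.length - 1) := by
    have e2 : ∑' l : {l | l ∈ WL n ∧ E l}, xc ^ (l.1.length - 1) =
        ∑' _ : {l | l ∈ WL n ∧ E l}, xc ^ n := by
      refine tsum_congr fun l => ?_
      rw [l.2.1.1]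
      rfl
    rw [e2, ENNReal.tsum_set_const, ← hBf.cast_ncard_eq]
    rfl
  rw [e1]
  have hlast : ∀ l : {l | l ∈ WL n ∧ E l}, ∃ q : V, q ∈ F ∧ l.1 ∈ Traj D (0, 0) q ∧ E l.1 := by
    rintro ⟨l, hl, hE⟩
    have hne : l ≠ [] := by
      intro h0
      have := hl.1
      rw [h0] at this
      simp at this
    refine ⟨l.getLast hne, hF _ (hD l hl _ (List.getLast_mem hne)),
      ⟨hl.2.1, List.getLast?_eq_some_getLast hne, hl.2.2.1, hl.2.2.2, hD l hl⟩, hE⟩
  choose g hg using hlast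
  have hinj : Function.Injective (fun l : {l | l ∈ WL n ∧ E l} =>
      (⟨⟨g l, (hg l).1⟩, ⟨l.1, (hg l).2⟩⟩ : (q : {q // q ∈ F}) ×
        {l // l ∈ Traj D (0, 0) q.1 ∧ E l})) := by
    intro l l' e
    apply Subtype.ext
    have e1 := congrArg (fun u : (q : {q // q ∈ F}) × {l // l ∈ Traj D (0, 0) q.1 ∧ E l} =>
      u.2.1) e
    exact e1
  have h1 := ENNReal.tsum_comp_le_tsum_of_injective hinj
    (fun u : (q : {q // q ∈ F}) × {l // l ∈ Traj D (0, 0) q.1 ∧ E l} =>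
      xc ^ (u.2.1.length - 1))
  refine h1.trans (le_of_eq ?_)
  rw [ENNReal.tsum_sigma']
  exact Finset.tsum_subtype F (fun q => ZE D (0, 0) q E)

theorem Z_self_le (D : Set V) (a : V) : Z D a a ≤ 1 := by
  have hs : ∀ l ∈ Traj D a a, l = [a] := by
    rintro l ⟨h1, h2, h3, -, -⟩
    match l, h1, h2, h3 with
    | [], h1, _, _ => simp at h1
    | [b], h1, _, _ =>
      simp only [List.head?_cons, Option.some.injEq] at h1
      rw [h1]
    | b :: c :: t, h1, h2, h3 =>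
      exfalso
      simp only [List.head?_cons, Option.some.injEq] at h1
      subst h1
      rw [List.getLast?_cons_cons] at h2
      have h4 : b ∈ c :: t := List.mem_of_mem_getLast? (by rw [h2]; rfl)
      exact (List.nodup_cons.1 h3).1 h4
  have hsub : Subsingleton (Traj D a a) := ⟨fun l l' => Subtype.ext
    ((hs l.1 l.2).trans (hs l'.1 l'.2).symm)⟩
  unfold Z
  rcases isEmpty_or_nonempty (Traj D a a) with he | ⟨⟨l0⟩⟩
  · rw [tsum_empty]
    exact zero_le
  · rw [tsum_eq_single l0 (fun l hl => absurd (Subsingleton.elim _ _) hl)]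
    rw [hs l0.1 l0.2]
    simp

theorem Z_le_of_glue {K : ℝ} {L : ℕ} {D : Set V}
    (hg : ∀ a v b : V, Z D a v * Z D v b ≤
      ENNReal.ofReal (Real.exp (K * Real.log L ^ 2)) * Z D a b) (hK : 0 ≤ K) (a b : V) :
    Z D a b ≤ ENNReal.ofReal (Real.exp (K * Real.log L ^ 2)) := by
  have h1 := hg a b a
  rw [Z_rev D b a] at h1
  have h2 : Z D a b * Z D a b ≤ ENNReal.ofReal (Real.exp (K * Real.log L ^ 2)) :=
    h1.trans (mul_le_of_le_one_right zero_le (Z_self_le D a))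
  rcases le_or_gt (Z D a b) 1 with h3 | h3
  · refine h3.trans ?_
    rw [← ENNReal.ofReal_one]
    apply ENNReal.ofReal_le_ofReal
    apply Real.one_le_exp
    positivity
  · exact (le_mul_of_one_le_right zero_le h3.le).trans h2

/-- bad crossings have a small weight -/
theorem bad_mass {T : ℕ} (hT : 2 ≤ T) {A : ℝ} (hA : 0 < A) (D : Set V) (x y : V)
    (hx : Odd (x.1 + x.2)) (hy : y.1 - y.2 = x.1 - x.2 + 2 * T - 1) {c c' : ℝ}
    (hc : c ≤ 1 / (32 * A + 112) * T) (hc' : (32 * A + 112) * T ≤ c') :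
    ZE D x y (fun m => (∀ v ∈ m, x.1 - x.2 ≤ v.1 - v.2 ∧ v.1 - v.2 ≤ x.1 - x.2 + 2 * T - 1) ∧
      (Wid m c ∨ ¬ Wid m c')) ≤ 2 * ENNReal.ofReal (Real.exp (-A)) := by
  obtain ⟨t, ht⟩ : ∃ t : V, t = (1 - x.1, -x.2) := ⟨_, rfl⟩
  have hte : Even (t.1 + t.2) := by
    rw [ht]
    simp only
    rw [Int.even_iff]
    rw [Int.odd_iff] at hx
    omega
  obtain ⟨z, hz⟩ : ∃ z : ℤ, z = y.2 - x.2 := ⟨_, rfl⟩
  have hyt : y + t = (2 * (T : ℤ) + z, z) := by
    rw [ht, hz]
    apply Prod.ext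
    · simp only [Prod.fst_add]; omega
    · simp only [Prod.snd_add]; omega
  have hxt : x + t = (1, 0) := by
    rw [ht]
    apply Prod.ext
    · simp only [Prod.fst_add]; omega
    · simp only [Prod.snd_add]; omega
  have hT1 : 1 ≤ T := by omega
  have h1 := tail_all (L := T) hT hA
  have h2 := Cr_eq hT1 (BadL (1 / (32 * A + 112)) (32 * A + 112) T) (fun l => by
      unfold BadL
      change Wid l.reverse _ ∨ ¬ Wid l.reverse _ ↔ Wid l _ ∨ ¬ Wid l _
      rw [Wid_rev, Wid_rev])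
  have h3 : ma (Cr T (BadL (1 / (32 * A + 112)) (32 * A + 112) T)) ≤
      ENNReal.ofReal (Real.exp (-A)) := by
    rw [← ENNReal.ofReal_toReal (Cr_ne_top hT1 _)]
    exact ENNReal.ofReal_le_ofReal h1
  have hwt : ∀ (m : List V) (c : ℝ), Wid (m.map (fun v => v + t)) c ↔ Wid m c := by
    intro m c
    have e : ∀ a b : V, (((a + t).1 + 3 * (a + t).2 - ((b + t).1 + 3 * (b + t).2) : ℤ) : ℝ) =
        ((a.1 + 3 * a.2 - (b.1 + 3 * b.2) : ℤ) : ℝ) := by
      intro a b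
      congr 1
      simp only [Prod.fst_add, Prod.snd_add]
      ring
    constructor
    · intro h a ha b hb
      have := h (a + t) (List.mem_map.2 ⟨a, ha, rfl⟩) (b + t) (List.mem_map.2 ⟨b, hb, rfl⟩)
      rwa [e] at this
    · intro h a ha b hb
      rw [List.mem_map] at ha hb
      obtain ⟨a', ha', rfl⟩ := ha
      obtain ⟨b', hb', rfl⟩ := hb
      rw [e]
      exact h a' ha' b' hb'
  have hm : ∀ m, m ∈ Traj D x y ∧ ((∀ v ∈ m, x.1 - x.2 ≤ v.1 - v.2 ∧
      v.1 - v.2 ≤ x.1 - x.2 + 2 * T - 1) ∧ (Wid m c ∨ ¬ Wid m c')) →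
      m.map (fun v => v + t) ∈ Traj (Strip T) (1, 0) (2 * (T : ℤ) + z, z) ∧
      BadL (1 / (32 * A + 112)) (32 * A + 112) T (m.map (fun v => v + t)) := by
    rintro m ⟨hm1, hm2, hm3⟩
    constructor
    · have h4 : m ∈ Traj {v | x.1 - x.2 ≤ v.1 - v.2 ∧ v.1 - v.2 ≤ x.1 - x.2 + 2 * T - 1} x y :=
        ⟨hm1.1, hm1.2.1, hm1.2.2.1, hm1.2.2.2.1, hm2⟩
      refine traj_map (g := fun v => v + t) (fun _ _ e => add_right_cancel e)
        (fun _ _ h => nbr_trans hte h) ?_ hxt hyt h4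
      rintro v ⟨hv1, hv2⟩
      change 1 ≤ (v + t).1 - (v + t).2 ∧ (v + t).1 - (v + t).2 ≤ 2 * T
      rw [ht]
      simp only [Prod.fst_add, Prod.snd_add]
      omega
    · rcases hm3 with hm3 | hm3
      · left
        exact WidL_mono hc ((hwt m c).2 hm3)
      · right
        intro h6
        exact hm3 ((hwt m c').1 (WidL_mono hc' h6))
  have hinj : Function.Injective (fun m : {m // m ∈ Traj D x y ∧
      ((∀ v ∈ m, x.1 - x.2 ≤ v.1 - v.2 ∧ v.1 - v.2 ≤ x.1 - x.2 + 2 * T - 1) ∧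
        (Wid m c ∨ ¬ Wid m c'))} =>
      (⟨m.1.map (fun v => v + t), hm m.1 m.2⟩ :
        {l // l ∈ Traj (Strip T) (1, 0) (2 * (T : ℤ) + z, z) ∧
        BadL (1 / (32 * A + 112)) (32 * A + 112) T l})) := by
    rintro ⟨l, h1⟩ ⟨l', h1'⟩ e
    apply Subtype.ext
    have e' := Subtype.mk.inj e
    exact List.map_injective_iff.2 (fun _ _ e => add_right_cancel e) e'
  have h5 : ZE D x y (fun m => (∀ v ∈ m, x.1 - x.2 ≤ v.1 - v.2 ∧
      v.1 - v.2 ≤ x.1 - x.2 + 2 * T - 1) ∧ (Wid m c ∨ ¬ Wid m c')) ≤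
      ∑' l : {l // l ∈ Traj (Strip T) (1, 0) (2 * (T : ℤ) + z, z) ∧
        BadL (1 / (32 * A + 112)) (32 * A + 112) T l}, xc ^ (l.1.length - 1) := by
    refine le_trans (le_of_eq ?_) (ENNReal.tsum_comp_le_tsum_of_injective hinj
      (fun l : {l // l ∈ Traj (Strip T) (1, 0) (2 * (T : ℤ) + z, z) ∧
        BadL (1 / (32 * A + 112)) (32 * A + 112) T l} => xc ^ (l.1.length - 1)))
    unfold ZE
    refine tsum_congr fun l => ?_
    simp only [List.length_map]
  have h6 : xc * ZE D x y (fun m => (∀ v ∈ m, x.1 - x.2 ≤ v.1 - v.2 ∧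
      v.1 - v.2 ≤ x.1 - x.2 + 2 * T - 1) ∧ (Wid m c ∨ ¬ Wid m c')) ≤
      ENNReal.ofReal (Real.exp (-A)) := by
    refine le_trans ?_ h3
    rw [h2]
    apply mul_le_mul_right
    refine h5.trans ?_
    exact ENNReal.le_tsum (f := fun z : ℤ => ∑' l : {l // l ∈ Traj (Strip T) (1, 0)
      (2 * (T : ℤ) + z, z) ∧ BadL (1 / (32 * A + 112)) (32 * A + 112) T l},
      xc ^ (l.1.length - 1)) z
  have h7 : (2 : ℝ≥0∞)⁻¹ * ZE D x y (fun m => (∀ v ∈ m, x.1 - x.2 ≤ v.1 - v.2 ∧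
      v.1 - v.2 ≤ x.1 - x.2 + 2 * T - 1) ∧ (Wid m c ∨ ¬ Wid m c')) ≤
      ENNReal.ofReal (Real.exp (-A)) :=
    (mul_le_mul_left half_le_xc _).trans h6
  calc _ = 2 * ((2 : ℝ≥0∞)⁻¹ * ZE D x y (fun m => (∀ v ∈ m, x.1 - x.2 ≤ v.1 - v.2 ∧
      v.1 - v.2 ≤ x.1 - x.2 + 2 * T - 1) ∧ (Wid m c ∨ ¬ Wid m c'))) := by
        rw [← mul_assoc, ENNReal.mul_inv_cancel (by norm_num) (by norm_num), one_mul]
    _ ≤ _ := mul_le_mul_right h7 _

end Pool.Agent.V11324.NS
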