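import Pool.Agent.V11324.NS.Rot
import Pool.Agent.V11324.NS.Fin

/-! **Theorem.** All crossings of the uniform walk with `n` steps are even. -/

set_option autoImplicit false

namespace Pool.Agent.V11324.NS

open Pool.Agent.W832.HR
open H978R2.Hex (V)
open scoped ENNReal

/-- bad crossing, upwards -/
def Up2 (w : ℝ) (l : List V) : Prop :=
  ∃ (T : ℕ) (x y : V) (l₁ m l₂ : List V), 2 ≤ T ∧ l = l₁ ++ m ++ l₂ ∧ m.head? = some x ∧
    m.getLast? = some y ∧ Odd (x.1 + x.2) ∧ y.1 - y.2 = x.1 - x.2 + 2 * T - 1 ∧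
    (∀ v ∈ m, x.1 - x.2 ≤ v.1 - v.2 ∧ v.1 - v.2 ≤ x.1 - x.2 + 2 * T - 1) ∧
    (Wid m (6 * (T / w)) ∨ ¬ Wid m (w * T))

theorem up2_of {w : ℝ} (hw : 1 ≤ w) {l : List V} (hch : l.IsChain Nbr) (l₁ m l₂ : List V) {H : ℝ}
    (hl : l = l₁ ++ m ++ l₂) (hc : Cross e0 m H) (hH : 1 ≤ H)
    (hb : Wd e0 m (H / w) ∨ ¬ Wd e0 m (w * H)) : Up2 w l := by
  obtain ⟨x, y, h1, h2, h3, h4, h5, h6⟩ := hc
  have hw0 : 0 < w := by linarith
  have hx : ¬ Even (x.1 + x.2) := Int.not_even_iff_odd.2 h3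
  have hxht := ht_e0 x
  have hyht := ht_e0 y
  rw [if_neg hx] at hxht
  rw [if_pos h4] at hyht
  -- the number of levels
  have hp1 := Int.odd_iff.1 h3
  have hp2 := Int.even_iff.1 h4
  obtain ⟨a, ha⟩ : ∃ a : ℤ, y.1 - y.2 = x.1 - x.2 + 2 * a - 1 :=
    ⟨(y.1 - y.2 - (x.1 - x.2) + 1) / 2, by omega⟩
  have haR : ((y.1 - y.2 : ℤ) : ℝ) = ((x.1 - x.2 : ℤ) : ℝ) + 2 * a - 1 := by
    rw [ha]
    push_cast
    ring
  have hHa : H = 3 / 2 * a - 1 := by
    rw [← h6, hxht, hyht, haR]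
    ring
  have ha2 : 2 ≤ a := by
    by_contra hcon
    push Not at hcon
    have : (a : ℝ) ≤ 1 := by exact_mod_cast (by omega : a ≤ 1)
    linarith
  obtain ⟨T, hT⟩ : ∃ T : ℕ, (T : ℤ) = a := ⟨a.toNat, Int.toNat_of_nonneg (by omega)⟩
  have hTR : (T : ℝ) = a := by exact_mod_cast hT
  have hT2 : (2 : ℝ) ≤ T := by rw [hTR]; exact_mod_cast ha2
  have hmch : m.IsChain Nbr := by
    rw [hl, List.append_assoc] at hch
    exact hch.right_of_append.left_of_append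
  have hlev : ∀ v ∈ m, x.1 - x.2 ≤ v.1 - v.2 ∧ v.1 - v.2 ≤ x.1 - x.2 + 2 * T - 1 := by
    intro v hv
    obtain ⟨h7, h8⟩ := h5 v hv
    rw [ht_e0 v] at h7 h8
    rw [hxht] at h7
    rw [hyht] at h8
    rw [hT, ← ha]
    constructor
    · have : ((x.1 - x.2 : ℤ) : ℝ) ≤ ((v.1 - v.2 : ℤ) : ℝ) := by
        split_ifs at h7 <;> linarith
      exact_mod_cast this
    · have h9 : ((v.1 - v.2 : ℤ) : ℝ) ≤ ((y.1 - y.2 : ℤ) : ℝ) := by
        split_ifs at h8 <;> linarith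
      exact_mod_cast h9
  have hyx : y.1 - y.2 = x.1 - x.2 + 2 * (T : ℤ) - 1 := by rw [hT]; exact ha
  have hHT : H ≤ 3 / 2 * T := by rw [hHa, hTR]; linarith
  have hTH : (T : ℝ) ≤ H := by rw [hHa, hTR]; rw [hTR] at hT2; linarith
  refine ⟨T, x, y, l₁, m, l₂, by exact_mod_cast hT2, hl, h1, h2, h3, hyx, hlev, ?_⟩
  rcases hb with hb | hb
  · left
    have hwd : Width m (3 / 2 * (T / w)) := by
      intro p hp q hq
      have h7 := hb p hp q hq
      rw [lt_e0, lt_e0] at h7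
      refine h7.trans ?_
      rw [← mul_div_assoc]
      gcongr
    have h8 := cross_width (T := T) (x := x) (by
      have : 2 ≤ T := by exact_mod_cast hT2
      omega) hmch ⟨h1, h3, hlev, y, h2, hyx⟩ hwd
    have h9 := width_wid h8 hwd
    have e : 4 * (3 / 2 * ((T : ℝ) / w)) = 6 * (T / w) := by ring
    rwa [e] at h9
  · right
    intro h7
    apply hb
    intro p hp q hq
    have h8 := h7 p hp q hq
    rw [lt_e0, lt_e0, lat_emb, lat_emb]
    push_cast at h8 ⊢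
    have h9 := s3_le
    have h10 := s3_nonneg
    have h11 : w * T ≤ w * H := by gcongr
    have h12 : 2 ≤ w * T := by nlinarith
    have h13 : Real.sqrt 3 / 4 * (w * T + 1) ≤ w * T := by nlinarith
    split_ifs
    · nlinarith
    · nlinarith
    · nlinarith
    · nlinarith

theorem uneven_up {w : ℝ} (hw : 1 ≤ w) {l : List V} (hch : l.IsChain Nbr)
    (h : UnevenD e0 w l) : Up2 w l ∨ Up2 w l.reverse := by
  obtain ⟨l1, m, l2, H, h1, h2, h3, h4⟩ := h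
  rcases h2 with h2 | h2
  · exact Or.inl (up2_of hw hch l1 m l2 h1 h2 h3 h4)
  · right
    have hch' : l.reverse.IsChain Nbr := by
      rw [List.isChain_reverse]
      exact hch.imp fun {p q} h => nbr_symm' h
    have hwr : ∀ c, Wd e0 m.reverse c ↔ Wd e0 m c := by
      intro c
      unfold Wd
      simp only [List.mem_reverse]
    refine up2_of hw hch' l2.reverse m.reverse l1.reverse (by rw [h1]; simp) h2 h3 ?_
    rw [hwr, hwr]
    exact h4

/-- the bound for upward crossings, in a box -/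
theorem up2_le {K : ℝ} {n : ℕ} (hK : 0 ≤ K) {D : Set V}
    (hg : ∀ a v b : V, Z D a v * Z D v b ≤
      ENNReal.ofReal (Real.exp (K * Real.log n ^ 2)) * Z D a b)
    (F : Finset V) (hF : ∀ v ∈ D, v ∈ F) {A w : ℝ} (hA : 0 < A) (hw0 : 0 < w)
    (hw : 6 * (32 * A + 112) ≤ w) (p q : V) :
    ZE D p q (Up2 w) ≤ ((F ×ˢ F).card : ℝ≥0∞) *
      (2 * ENNReal.ofReal (Real.exp (-A + 2 * (K * Real.log n ^ 2)))) := by
  classical
  obtain ⟨g, hgd⟩ : ∃ g, g = ENNReal.ofReal (Real.exp (K * Real.log n ^ 2)) := ⟨_, rfl⟩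
  have hZ : ∀ a b : V, Z D a b ≤ g := fun a b => by
    rw [hgd]
    exact Z_le_of_glue hg hK a b
  have e1 : ENNReal.ofReal (Real.exp (-A + 2 * (K * Real.log n ^ 2))) =
      ENNReal.ofReal (Real.exp (-A)) * (g * g) := by
    rw [Real.exp_add, ENNReal.ofReal_mul (Real.exp_pos _).le,
      two_mul, Real.exp_add, ENNReal.ofReal_mul (Real.exp_pos _).le, hgd]
  obtain ⟨Ev, hEv⟩ : ∃ Ev : V × V → List V → Prop, Ev = fun (xy : V × V) (l : List V) =>
      ∃ T : ℕ, 2 ≤ T ∧ Odd (xy.1.1 + xy.1.2) ∧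
      xy.2.1 - xy.2.2 = xy.1.1 - xy.1.2 + 2 * (T : ℤ) - 1 ∧
      ∃ l1 m l2, l = l1 ++ m ++ l2 ∧ m.head? = some xy.1 ∧ m.getLast? = some xy.2 ∧
        ((∀ v ∈ m, xy.1.1 - xy.1.2 ≤ v.1 - v.2 ∧ v.1 - v.2 ≤ xy.1.1 - xy.1.2 + 2 * (T : ℤ) - 1) ∧
          (Wid m (6 * (T / w)) ∨ ¬ Wid m (w * T))) := ⟨_, rfl⟩
  have hpair : ∀ xy ∈ F ×ˢ F, ZE D p q (Ev xy) ≤
      2 * ENNReal.ofReal (Real.exp (-A + 2 * (K * Real.log n ^ 2))) := by
    rintro ⟨x, y⟩ -
    by_cases hex : ∃ T : ℕ, 2 ≤ T ∧ Odd (x.1 + x.2) ∧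
        y.1 - y.2 = x.1 - x.2 + 2 * (T : ℤ) - 1
    · obtain ⟨T, hT2, hx, hy⟩ := hex
      have hT0 : (0 : ℝ) < T := by
        have : (2 : ℝ) ≤ T := by exact_mod_cast hT2
        linarith
      have h1 := bad_mass hT2 hA D x y hx hy (c := 6 * (T / w)) (c' := w * T) (by
        have e2 : 6 * ((T : ℝ) / w) = 6 / w * T := by ring
        have e3 : 6 / w ≤ 1 / (32 * A + 112) := by
          rw [div_le_div_iff₀ hw0 (by positivity)]
          linarith
        rw [e2]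
        refine (mul_le_mul_of_nonneg_right e3 hT0.le).trans (le_of_eq ?_)
        ring) (by
        gcongr
        linarith)
      have h2 := ZE_piece D p q x y (fun m => (∀ v ∈ m, x.1 - x.2 ≤ v.1 - v.2 ∧
        v.1 - v.2 ≤ x.1 - x.2 + 2 * T - 1) ∧ (Wid m (6 * (T / w)) ∨ ¬ Wid m (w * T)))
      refine le_trans (ZE_mono fun l _ h => ?_) (h2.trans ?_)
      · rw [hEv] at h
        obtain ⟨T', h2, h4, h5, h7⟩ := h
        simp only at h5 h7
        have e1 : T' = T := by omega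
        subst e1
        exact h7
      · rw [e1]
        calc _ ≤ g * (2 * ENNReal.ofReal (Real.exp (-A)) * g) :=
              mul_le_mul' (hZ p x) (mul_le_mul' h1 (hZ y q))
          _ = _ := by ring
    · refine le_trans (le_of_eq ?_) zero_le
      rw [ZE_ind, ENNReal.tsum_eq_zero]
      intro l
      apply Set.indicator_of_notMem
      rintro ⟨-, h⟩
      rw [hEv] at h
      obtain ⟨T', h2, h4, h5, h7⟩ := h
      exact hex ⟨T', h2, h4, h5⟩
  refine le_trans (ZE_mono fun l hl h => ?_) ((ZE_exists (F ×ˢ F) D p q Ev).trans ?_)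
  · obtain ⟨T, x, y, l1, m, l2, hT2, hlm, h1, h4, h2, h5, h3, hwid⟩ := h
    have hmD : ∀ v ∈ m, v ∈ D := by
      intro v hv
      apply hl.2.2.2.2
      rw [hlm]
      simp [hv]
    have hxm : x ∈ m := List.mem_of_mem_head? (by rw [h1]; rfl)
    have hym : y ∈ m := List.mem_of_mem_getLast? (by rw [h4]; rfl)
    refine ⟨(x, y), Finset.mem_product.2 ⟨hF x (hmD x hxm), hF y (hmD y hym)⟩, ?_⟩
    rw [hEv]
    exact ⟨T, hT2, h2, h5, l1, m, l2, hlm, h1, h4, h3, hwid⟩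
  · refine (Finset.sum_le_card_nsmul _ _ _ hpair).trans (le_of_eq ?_)
    rw [nsmul_eq_mul]

/-- **Theorem.** -/
theorem main2 : ∃ C : ℝ, 0 < C ∧ ∀ n s : ℕ, 2 ≤ n → 1 ≤ s →
    ({l | l ∈ WL n ∧ ∃ e : ℂ, (e = e0 ∨ e = e1 ∨ e = e2) ∧
      UnevenD e (C * s * Real.log n ^ 2) l}.ncard : ℝ) ≤
      Real.exp (-(s * Real.log n ^ 2)) * (WL n).ncard := by
  classical
  obtain ⟨K0, hK0⟩ := Pool.Agent.TH303.HX2.gluing 1
  obtain ⟨Kb, hB⟩ := Pool.Agent.TH303.HX2.exists_Bd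
  obtain ⟨K, hK⟩ : ∃ K, K = |K0| := ⟨_, rfl⟩
  have hKn : 0 ≤ K := by rw [hK]; exact abs_nonneg _
  obtain ⟨c1, hc1⟩ : ∃ c1, c1 = 4 * Real.log (3 * (1 : ℕ)) + 2 := ⟨_, rfl⟩
  have hc1n : 0 ≤ c1 := by
    have h1 : 0 ≤ Real.log (3 * (1 : ℕ)) := Real.log_nonneg (by norm_num)
    rw [hc1]
    linarith
  obtain ⟨G, hG⟩ : ∃ G, G = 6 * c1 + 2 * K + 12 := ⟨_, rfl⟩
  have hGn : 0 ≤ G := by rw [hG]; positivity
  obtain ⟨C, hC⟩ : ∃ C, C = 6 * (32 * (1 + G) + 448) := ⟨_, rfl⟩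
  have hCpos : 0 < C := by rw [hC]; positivity
  refine ⟨C, hCpos, ?_⟩
  intro n s hn hs
  have hlog := log_ge hn
  have hnr : (2 : ℝ) ≤ n := by exact_mod_cast hn
  have hsr : (1 : ℝ) ≤ s := by exact_mod_cast hs
  obtain ⟨k2, hk⟩ : ∃ k2, k2 = Real.log n ^ 2 := ⟨_, rfl⟩
  have hk4 : 1 / 4 ≤ k2 := by rw [hk]; nlinarith
  have hsk : k2 ≤ s * k2 := by nlinarith
  obtain ⟨w, hw⟩ : ∃ w, w = C * s * Real.log n ^ 2 := ⟨_, rfl⟩
  have hwl : w = C * (s * k2) := by rw [hw, hk]; ring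
  have hw1 : 1 ≤ w := by
    rw [hwl, hC]
    nlinarith
  obtain ⟨A, hA⟩ : ∃ A, A = (s + G) * k2 := ⟨_, rfl⟩
  have hApos : 0 < A := by rw [hA]; positivity
  have hc32 : 6 * (32 * A + 112) ≤ w := by
    have h1 : 32 * A + 112 ≤ (32 * (1 + G) + 448) * (s * k2) := by
      have h2 : A ≤ (1 + G) * (s * k2) := by
        rw [hA]
        nlinarith [mul_nonneg hGn (by linarith : 0 ≤ s * k2 - k2)]
      nlinarith
    rw [hwl, hC]
    linarith
  -- the box
  obtain ⟨D, hD⟩ : ∃ D : Set V, D = {v : V | |v.1| ≤ n ∧ |v.2| ≤ n} := ⟨_, rfl⟩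
  have hDW : ∀ l ∈ WL n, ∀ v ∈ l, v ∈ D := by
    intro l hl v hv
    rw [hD]
    exact coord_step hl v hv
  have hg : ∀ a v b : V, Z D a v * Z D v b ≤
      ENNReal.ofReal (Real.exp (K * Real.log n ^ 2)) * Z D a b := by
    intro a v b
    refine (hK0 n hn D (fun v hv => ?_) a v b).trans ?_
    · rw [hD] at hv
      obtain ⟨h1, h2⟩ := hv
      rw [one_mul]
      constructor
      · exact_mod_cast h1
      · exact_mod_cast h2
    · refine mul_le_mul' (ENNReal.ofReal_le_ofReal (Real.exp_le_exp.2 ?_)) (le_of_eq rfl)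
      rw [hK]
      gcongr
      exact le_abs_self _
  obtain ⟨F, hF⟩ : ∃ F : Finset V, F = Finset.Icc (-(n : ℤ)) n ×ˢ Finset.Icc (-(n : ℤ)) n := ⟨_, rfl⟩
  have hFD : ∀ v ∈ D, v ∈ F := by
    intro v hv
    rw [hD] at hv
    obtain ⟨h1, h2⟩ := hv
    rw [abs_le] at h1 h2
    rw [hF, Finset.mem_product, Finset.mem_Icc, Finset.mem_Icc]
    exact ⟨h1, h2⟩
  obtain ⟨N, hN⟩ : ∃ N : ℝ, N = 3 * (1 : ℕ) * n := ⟨_, rfl⟩
  have hNpos : 0 < N := by rw [hN]; positivity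
  have hn1 : 2 * (n : ℝ) + 1 ≤ N := by
    rw [hN]
    push_cast
    linarith
  have hFc : (F.card : ℝ) ≤ N ^ 2 := by
    rw [hF, Finset.card_product, Int.card_Icc]
    have e1 : (((n : ℤ) + 1 - -n).toNat : ℕ) = 2 * n + 1 := by omega
    rw [e1]
    push_cast
    have : (0 : ℝ) ≤ 2 * n + 1 := by positivity
    nlinarith
  have hfin : (WL n).Finite := by
    apply Set.finite_of_ncard_ne_zero
    rw [WL_ncard]
    have h1 := hB.low n hn
    have h2 : (0 : ℝ) < Real.sqrt (2 + Real.sqrt 2) ^ n := by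
      have := hB.one
      positivity
    intro h3
    rw [h3] at h1
    push_cast at h1
    linarith
  -- one direction
  obtain ⟨E, hE⟩ : ∃ E : List V → Prop, E = fun l => Up2 w l ∨ Up2 w l.reverse := ⟨_, rfl⟩
  obtain ⟨R, hR⟩ : ∃ R : ℝ, R = 4 * N ^ 6 * Real.exp (-A + 2 * (K * Real.log n ^ 2)) := ⟨_, rfl⟩
  have hcount : (({l | l ∈ WL n ∧ E l}.ncard : ℕ) : ℝ≥0∞) * xc ^ n ≤ ENNReal.ofReal R := by
    refine (count_le E D F hDW hFD hfin).trans ?_
    obtain ⟨b, hb⟩ : ∃ b, b = 2 * ENNReal.ofReal (Real.exp (-A + 2 * (K * Real.log n ^ 2))) :=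
      ⟨_, rfl⟩
    have h1 : ∀ q ∈ F, ZE D (0, 0) q E ≤ 2 * (((F ×ˢ F).card : ℝ≥0∞) * b) := by
      intro q _
      rw [hE, two_mul, hb]
      refine (ZE_or D (0, 0) q _ _).trans (add_le_add ?_ ((ZE_rev D (0, 0) q (Up2 w)).trans ?_))
      · exact up2_le hKn hg F hFD hApos (by linarith) hc32 (0, 0) q
      · exact up2_le hKn hg F hFD hApos (by linarith) hc32 q (0, 0)
    refine (Finset.sum_le_card_nsmul _ _ _ h1).trans ?_
    rw [nsmul_eq_mul, hb]
    have e1 : ((F ×ˢ F).card : ℝ≥0∞) = ENNReal.ofReal ((F ×ˢ F).card : ℝ) := by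
      rw [ENNReal.ofReal_natCast]
    have e3 : (F.card : ℝ≥0∞) = ENNReal.ofReal (F.card : ℝ) := by
      rw [ENNReal.ofReal_natCast]
    have e2 : (2 : ℝ≥0∞) = ENNReal.ofReal 2 := by simp
    rw [e1, e2, e3, ← ENNReal.ofReal_mul (by positivity), ← ENNReal.ofReal_mul (by positivity),
      ← ENNReal.ofReal_mul (by positivity), ← ENNReal.ofReal_mul (by positivity)]
    apply ENNReal.ofReal_le_ofReal
    rw [Finset.card_product, hR]
    push_cast
    obtain ⟨f, hf⟩ : ∃ f : ℝ, f = (F.card : ℝ) := ⟨_, rfl⟩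
    rw [← hf] at hFc ⊢
    have hf0 : 0 ≤ f := by rw [hf]; positivity
    have h2 : f * (f * f) ≤ N ^ 6 := by
      calc f * (f * f) = f ^ 3 := by ring
        _ ≤ (N ^ 2) ^ 3 := pow_le_pow_left₀ hf0 hFc 3
        _ = N ^ 6 := by ring
    have h3 := Real.exp_pos (-A + 2 * (K * Real.log n ^ 2))
    calc f * (2 * (f * f * (2 * Real.exp (-A + 2 * (K * Real.log n ^ 2))))) =
        4 * (f * (f * f)) * Real.exp (-A + 2 * (K * Real.log n ^ 2)) := by ring
      _ ≤ 4 * N ^ 6 * Real.exp (-A + 2 * (K * Real.log n ^ 2)) := by gcongr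
  -- three directions
  have hsub : {l | l ∈ WL n ∧ ∃ e : ℂ, (e = e0 ∨ e = e1 ∨ e = e2) ∧ UnevenD e w l} ⊆
      {l | l ∈ WL n ∧ E l} ∪ ({l | l ∈ WL n ∧ E (l.map (fun v => rot (rot v)))} ∪
        {l | l ∈ WL n ∧ E (l.map rot)}) := by
    rintro l ⟨hl, e, he, hU⟩
    have hup : ∀ l' ∈ WL n, UnevenD e0 w l' → E l' := by
      intro l' hl' h
      rw [hE]
      exact uneven_up hw1 hl'.2.2.2 h
    rcases he with rfl | rfl | rfl
    · exact Or.inl ⟨hl, hup l hl hU⟩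
    · right; left
      refine ⟨hl, hup _ (map_mem_WL (g := fun v => rot (rot v))
        (fun a b h => rot_inj (rot_inj h)) (fun _ _ h => rot_nbr (rot_nbr h))
        (by simp only [rot_zero]) hl) ?_⟩
      refine uneven_map (a := 3 / 4) (b := -(Real.sqrt 3 / 4)) ht_e1
        (fun v => by rw [lt_e1]; ring) (fun v => ?_) hU
      exact (rot_spec (rot v)).2.2.trans (rot_spec v).2.2
    · right; right
      refine ⟨hl, hup _ (map_mem_WL rot_inj (fun _ _ h => rot_nbr h) rot_zero hl) ?_⟩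
      exact uneven_map (a := 0) (b := -(Real.sqrt 3 / 2)) (fun v => by rw [ht_e2]; ring)
        (fun v => by rw [lt_e2]; ring) (fun v => (rot_spec v).2.2) hU
  have hcard : {l | l ∈ WL n ∧ ∃ e : ℂ, (e = e0 ∨ e = e1 ∨ e = e2) ∧ UnevenD e w l}.ncard ≤
      3 * {l | l ∈ WL n ∧ E l}.ncard := by
    have h1 := Set.ncard_le_ncard hsub ((hfin.subset fun l hl => hl.1).union
      ((hfin.subset fun l hl => hl.1).union (hfin.subset fun l hl => hl.1)))
    have h2 := Set.ncard_union_le {l | l ∈ WL n ∧ E l} ({l | l ∈ WL n ∧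
      E (l.map (fun v => rot (rot v)))} ∪ {l | l ∈ WL n ∧ E (l.map rot)})
    have h3 := Set.ncard_union_le {l | l ∈ WL n ∧ E (l.map (fun v => rot (rot v)))}
      {l | l ∈ WL n ∧ E (l.map rot)}
    have h4 := ncard_map_le (n := n) (g := fun v => rot (rot v))
        (fun a b h => rot_inj (rot_inj h)) (fun _ _ h => rot_nbr (rot_nbr h))
        (by simp only [rot_zero]) hfin E
    have h5 := ncard_map_le (n := n) (g := rot) rot_inj (fun _ _ h => rot_nbr h) rot_zero hfin E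
    omega
  rw [← hw]
  -- the numbers
  obtain ⟨B, hBd⟩ : ∃ B : ℕ, B = {l | l ∈ WL n ∧ E l}.ncard := ⟨_, rfl⟩
  rw [← hBd] at hcount hcard
  have hRpos : 0 ≤ R := by rw [hR]; positivity
  obtain ⟨μ, hμ⟩ : ∃ μ, μ = Real.sqrt (2 + Real.sqrt 2) := ⟨_, rfl⟩
  have hμ1 : 1 ≤ μ := by rw [hμ]; exact hB.one
  have hμ0 : 0 < μ := by linarith
  have hBR : (B : ℝ) ≤ R * μ ^ n := by
    have e1 : ((B : ℕ) : ℝ≥0∞) * xc ^ n = ENNReal.ofReal (B * (1 / μ) ^ n) := by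
      unfold xc
      rw [← hμ, ← ENNReal.ofReal_pow (by positivity), ENNReal.ofReal_mul (by positivity),
        ENNReal.ofReal_natCast]
    rw [e1, ENNReal.ofReal_le_ofReal_iff hRpos] at hcount
    rw [one_div, inv_pow, ← div_eq_mul_inv, div_le_iff₀ (by positivity)] at hcount
    exact hcount
  have hlow : μ ^ n ≤ ((WL n).ncard : ℝ) := by
    rw [WL_ncard, hμ]
    exact hB.low n hn
  have hNexp : N ≤ Real.exp (c1 * k2) := by
    rw [← Real.log_le_iff_le_exp hNpos, hN, hc1, hk]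
    exact log_bd le_rfl hn
  have h6 : N ^ 6 ≤ Real.exp (6 * c1 * k2) := by
    calc N ^ 6 ≤ Real.exp (c1 * k2) ^ 6 := pow_le_pow_left₀ hNpos.le hNexp _
      _ = _ := by
          rw [← Real.exp_nat_mul]
          congr 1
          push_cast
          ring
  have h12 : 12 ≤ Real.exp (12 * k2) := by
    have h5 : Real.exp 3 ≤ Real.exp (12 * k2) := Real.exp_le_exp.2 (by linarith)
    have h7 := Real.exp_one_gt_d9
    have e3 : Real.exp 3 = Real.exp 1 ^ 3 := by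
      rw [← Real.exp_nat_mul]
      norm_num
    have h8 : (2.7 : ℝ) ^ 3 ≤ Real.exp 1 ^ 3 := pow_le_pow_left₀ (by norm_num) (by linarith) 3
    rw [e3] at h5
    norm_num at h8
    linarith
  have hR3 : 3 * R ≤ Real.exp (-(s * Real.log n ^ 2)) := by
    rw [hR]
    calc 3 * (4 * N ^ 6 * Real.exp (-A + 2 * (K * Real.log n ^ 2))) =
        12 * N ^ 6 * Real.exp (-A + 2 * (K * Real.log n ^ 2)) := by ring
      _ ≤ Real.exp (12 * k2) * Real.exp (6 * c1 * k2) *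
          Real.exp (-A + 2 * (K * Real.log n ^ 2)) := by gcongr
      _ = Real.exp (-(s * Real.log n ^ 2)) := by
          rw [← Real.exp_add, ← Real.exp_add, ← hk, hA, hG]
          congr 1
          ring
  have hcardR : ({l | l ∈ WL n ∧ ∃ e : ℂ, (e = e0 ∨ e = e1 ∨ e = e2) ∧
      UnevenD e w l}.ncard : ℝ) ≤ 3 * B := by exact_mod_cast hcard
  calc _ ≤ 3 * (B : ℝ) := hcardR
    _ ≤ 3 * (R * μ ^ n) := by gcongr
    _ = (3 * R) * μ ^ n := by ring
    _ ≤ Real.exp (-(s * Real.log n ^ 2)) * (WL n).ncard := by gcongr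

end Pool.Agent.V11324.NS
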