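import Pool.Agent.W832.HR.RectC
import Pool.Agent.TH303.HX2

/-! Partial sums over trajectories: decomposition at a piece, thin crossings. -/

set_option autoImplicit false

namespace Pool.Agent.V11324.NS

open Pool.Agent.W832.HR
open H978R2.Hex (V)
open scoped ENNReal

/-- the sum over the trajectories with a property -/
noncomputable def ZE (D : Set V) (a b : V) (E : List V → Prop) : ℝ≥0∞ :=
  ∑' l : {l // l ∈ Traj D a b ∧ E l}, xc ^ (l.1.length - 1)

theorem ZE_ind (D : Set V) (a b : V) (E : List V → Prop) :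
    ZE D a b E = ∑' l : List V, {l | l ∈ Traj D a b ∧ E l}.indicator
      (fun l => xc ^ (l.length - 1)) l :=
  tsum_subtype {l | l ∈ Traj D a b ∧ E l} (fun l : List V => xc ^ (l.length - 1))

theorem ZE_mono {D : Set V} {a b : V} {E E' : List V → Prop}
    (h : ∀ l ∈ Traj D a b, E l → E' l) : ZE D a b E ≤ ZE D a b E' := by
  rw [ZE_ind, ZE_ind]
  refine ENNReal.tsum_le_tsum fun l => ?_
  apply Set.indicator_le_indicator_of_subset _ (fun _ => zero_le)
  rintro l ⟨h1, h2⟩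
  exact ⟨h1, h l h1 h2⟩

theorem ZE_or (D : Set V) (a b : V) (E E' : List V → Prop) :
    ZE D a b (fun l => E l ∨ E' l) ≤ ZE D a b E + ZE D a b E' := by
  rw [ZE_ind, ZE_ind, ZE_ind, ← ENNReal.tsum_add]
  refine ENNReal.tsum_le_tsum fun l => ?_
  have e : {l | l ∈ Traj D a b ∧ (E l ∨ E' l)} =
      {l | l ∈ Traj D a b ∧ E l} ∪ {l | l ∈ Traj D a b ∧ E' l} := by
    ext l
    simp only [Set.mem_ofPred_eq, Set.mem_union]
    tauto
  rw [e]
  by_cases h1 : l ∈ {l | l ∈ Traj D a b ∧ E l}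
  · rw [Set.indicator_of_mem (Set.mem_union_left _ h1), Set.indicator_of_mem h1]
    exact le_self_add
  · by_cases h2 : l ∈ {l | l ∈ Traj D a b ∧ E' l}
    · rw [Set.indicator_of_mem (Set.mem_union_right _ h2), Set.indicator_of_mem h2]
      exact le_add_self
    · rw [Set.indicator_of_notMem (fun h => h.elim h1 h2)]
      exact zero_le

theorem ZE_exists {ι : Type*} (F : Finset ι) (D : Set V) (a b : V) (E : ι → List V → Prop) :
    ZE D a b (fun l => ∃ i ∈ F, E i l) ≤ ∑ i ∈ F, ZE D a b (E i) := by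
  classical
  induction F using Finset.induction_on with
  | empty =>
    rw [Finset.sum_empty, ZE_ind]
    refine le_of_eq ?_
    rw [ENNReal.tsum_eq_zero]
    intro l
    apply Set.indicator_of_notMem
    rintro ⟨-, i, hi, -⟩
    simp at hi
  | insert i F hi ih =>
    rw [Finset.sum_insert hi]
    refine le_trans (ZE_mono fun l _ h => ?_) ((ZE_or D a b (E i) fun l => ∃ i ∈ F, E i l).trans
      (by gcongr))
    obtain ⟨j, hj, hE⟩ := h
    rw [Finset.mem_insert] at hj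
    rcases hj with rfl | hj
    · exact Or.inl hE
    · exact Or.inr ⟨j, hj, hE⟩

theorem ZE_rev (D : Set V) (a b : V) (E : List V → Prop) :
    ZE D a b (fun l => E l.reverse) ≤ ZE D b a E := by
  have hm : ∀ l, l ∈ Traj D a b ∧ E l.reverse → l.reverse ∈ Traj D b a ∧ E l.reverse := by
    rintro l ⟨⟨h1, h2, h3, h4, h5⟩, h6⟩
    refine ⟨⟨?_, ?_, List.nodup_reverse.2 h3, ?_, fun p hp => h5 p (List.mem_reverse.1 hp)⟩, h6⟩
    · rw [List.head?_reverse]; exact h2
    · rw [List.getLast?_reverse]; exact h1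
    · rw [List.isChain_reverse]
      refine h4.imp fun {p q} h => ?_
      rw [nbr_iff] at h ⊢
      have := h
      rw [H978R2.Hex.adj_iff] at this ⊢
      omega
  have hinj : Function.Injective (fun l : {l // l ∈ Traj D a b ∧ E l.reverse} =>
      (⟨l.1.reverse, hm l.1 l.2⟩ : {l // l ∈ Traj D b a ∧ E l})) := by
    rintro ⟨l, h1⟩ ⟨l', h1'⟩ e
    exact Subtype.ext (List.reverse_injective (Subtype.mk.inj e))
  refine le_trans (le_of_eq ?_) (ENNReal.tsum_comp_le_tsum_of_injective hinj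
    (fun l : {l // l ∈ Traj D b a ∧ E l} => xc ^ (l.1.length - 1)))
  unfold ZE
  refine tsum_congr fun l => ?_
  simp only [List.length_reverse]

/-- decomposition at a piece -/
theorem ZE_piece (D : Set V) (p q x y : V) (F : List V → Prop) :
    ZE D p q (fun l => ∃ l1 m l2, l = l1 ++ m ++ l2 ∧ m.head? = some x ∧
      m.getLast? = some y ∧ F m) ≤ Z D p x * (ZE D x y F * Z D y q) := by
  classical
  have key : ∀ l : {l // l ∈ Traj D p q ∧ ∃ l1 m l2, l = l1 ++ m ++ l2 ∧ m.head? = some x ∧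
      m.getLast? = some y ∧ F m}, ∃ t : List V × List V × List V,
      l.1 = t.1 ++ t.2.1 ++ t.2.2 ∧ t.1 ++ [x] ∈ Traj D p x ∧
      (t.2.1 ∈ Traj D x y ∧ F t.2.1) ∧ y :: t.2.2 ∈ Traj D y q := by
    rintro ⟨l, ⟨h1, h2, h3, h4, h5⟩, l1, m, l2, rfl, hx, hy, hF⟩
    obtain ⟨m', rfl⟩ : ∃ m', m = x :: m' := by
      cases m with
      | nil => simp at hx
      | cons a m' => simp at hx; exact ⟨m', by rw [hx]⟩
    obtain ⟨m'', hm''⟩ : ∃ m'', x :: m' = m'' ++ [y] := by
      rw [List.getLast?_eq_some_iff] at hy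
      exact hy
    refine ⟨(l1, x :: m', l2), rfl, ?_, ⟨?_, hF⟩, ?_⟩
    · -- first part
      have e : l1 ++ (x :: m') ++ l2 = (l1 ++ [x]) ++ (m' ++ l2) := by simp
      rw [e] at h1 h3 h4 h5
      refine ⟨?_, ?_, (List.nodup_append.1 h3).1, h4.left_of_append, fun v hv => h5 v
        (List.mem_append_left _ hv)⟩
      · rw [List.head?_append_of_ne_nil _ (by simp)] at h1
        exact h1
      · simp
    · rw [List.append_assoc] at h3 h4
      have h3' := (List.nodup_append.1 h3).2.1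
      have h4' := h4.right_of_append
      exact ⟨hx, hy, (List.nodup_append.1 h3').1, h4'.left_of_append, fun v hv => h5 v
        (List.mem_append_left _ (List.mem_append_right _ hv))⟩
    · rw [hm''] at h2 h3 h4 h5
      have e : l1 ++ (m'' ++ [y]) ++ l2 = (l1 ++ m'') ++ (y :: l2) := by simp
      rw [e] at h2 h3 h4 h5
      refine ⟨rfl, ?_, (List.nodup_append.1 h3).2.1, h4.right_of_append, fun v hv => h5 v
        (List.mem_append_right _ hv)⟩
      rw [List.getLast?_append_of_ne_nil _ (by simp)] at h2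
      exact h2
  choose t ht using key
  have hinj : Function.Injective (fun l => ((⟨(t l).1 ++ [x], (ht l).2.1⟩,
      ⟨(t l).2.1, (ht l).2.2.1⟩, ⟨y :: (t l).2.2, (ht l).2.2.2⟩) :
      (Traj D p x) × {m // m ∈ Traj D x y ∧ F m} × (Traj D y q))) := by
    intro l l' e
    simp only [Prod.mk.injEq, Subtype.mk.injEq] at e
    obtain ⟨e1, e2, e3⟩ := e
    have e1' : (t l).1 = (t l').1 := List.append_cancel_right e1
    have e3' : (t l).2.2 = (t l').2.2 := (List.cons.inj e3).2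
    apply Subtype.ext
    rw [(ht l).1, (ht l').1, e1', e2, e3']
  have hw : ∀ l, xc ^ (l.1.length - 1) = xc ^ (((t l).1 ++ [x]).length - 1) *
      (xc ^ ((t l).2.1.length - 1) * xc ^ ((y :: (t l).2.2).length - 1)) := by
    intro l
    rw [← pow_add, ← pow_add]
    congr 1
    have h1 : 1 ≤ (t l).2.1.length := by
      have h2 := (ht l).2.2.1.1.1
      cases h3 : (t l).2.1 with
      | nil => rw [h3] at h2; simp at h2
      | cons a b => simp
    rw [(ht l).1]
    simp only [List.length_append, List.length_cons, List.length_nil]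
    omega
  have hp : Z D p x * (ZE D x y F * Z D y q) =
      ∑' u : (Traj D p x) × {m // m ∈ Traj D x y ∧ F m} × (Traj D y q),
        xc ^ (u.1.1.length - 1) * (xc ^ (u.2.1.1.length - 1) * xc ^ (u.2.2.1.length - 1)) := by
    rw [ENNReal.tsum_prod']
    unfold Z ZE
    rw [← ENNReal.tsum_mul_right]
    refine tsum_congr fun a => ?_
    simp only
    rw [ENNReal.tsum_mul_left, ENNReal.tsum_prod', ← ENNReal.tsum_mul_right]
    congr 1
    refine tsum_congr fun b => ?_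
    simp only
    rw [ENNReal.tsum_mul_left]
  rw [hp]
  refine le_trans (le_of_eq ?_) (ENNReal.tsum_comp_le_tsum_of_injective hinj
    (fun u : (Traj D p x) × {m // m ∈ Traj D x y ∧ F m} × (Traj D y q) =>
        xc ^ (u.1.1.length - 1) * (xc ^ (u.2.1.1.length - 1) * xc ^ (u.2.2.1.length - 1))))
  unfold ZE
  exact tsum_congr fun l => hw l

theorem half_le_xc : (2 : ℝ≥0∞)⁻¹ ≤ xc := by
  rw [xc_eq]
  have h := ENNReal.ofReal_le_ofReal xc_half
  refine le_trans (le_of_eq ?_) h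
  rw [one_div, ENNReal.ofReal_inv_of_pos (by norm_num)]
  simp

/-- thin crossings have a small weight -/
theorem thin_le {T : ℕ} (hT : 2 ≤ T) {A : ℝ} (hA : 0 < A) (D : Set V) (x y : V)
    (hx : Odd (x.1 + x.2)) (hy : y.1 - y.2 = x.1 - x.2 + 2 * T - 1) {c : ℝ}
    (hc : c ≤ 1 / (32 * A + 112) * T) :
    ZE D x y (fun m => (∀ v ∈ m, x.1 - x.2 ≤ v.1 - v.2 ∧ v.1 - v.2 ≤ x.1 - x.2 + 2 * T - 1) ∧
      Wid m c) ≤ 2 * ENNReal.ofReal (Real.exp (-A)) := by
  obtain ⟨t, ht⟩ : ∃ t : V, t = (1 - x.1, -x.2) := ⟨_, rfl⟩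
  have hte : Even (t.1 + t.2) := by
    rw [ht]
    simp only
    rw [Int.even_iff]
    rw [Int.odd_iff] at hx
    omega
  obtain ⟨z, hz⟩ : ∃ z : ℤ, z = y.2 - x.2 := ⟨_, rfl⟩
  have hyt : y + t = (2 * (T : ℤ) + z, z) := by
    rw [ht, hz]
    apply Prod.ext
    · simp only [Prod.fst_add]; omega
    · simp only [Prod.snd_add]; omega
  have hxt : x + t = (1, 0) := by
    rw [ht]
    apply Prod.ext
    · simp only [Prod.fst_add]; omega
    · simp only [Prod.snd_add]; omega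
  have hT1 : 1 ≤ T := by omega
  have h1 := tail_all (L := T) hT hA
  have h2 := Cr_eq hT1 (BadL (1 / (32 * A + 112)) (32 * A + 112) T) (fun l => by
      unfold BadL
      change Wid l.reverse _ ∨ ¬ Wid l.reverse _ ↔ Wid l _ ∨ ¬ Wid l _
      rw [Wid_rev, Wid_rev])
  have h3 : ma (Cr T (BadL (1 / (32 * A + 112)) (32 * A + 112) T)) ≤
      ENNReal.ofReal (Real.exp (-A)) := by
    rw [← ENNReal.ofReal_toReal (Cr_ne_top hT1 _)]
    exact ENNReal.ofReal_le_ofReal h1
  have hm : ∀ m, m ∈ Traj D x y ∧ ((∀ v ∈ m, x.1 - x.2 ≤ v.1 - v.2 ∧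
      v.1 - v.2 ≤ x.1 - x.2 + 2 * T - 1) ∧ Wid m c) →
      m.map (fun v => v + t) ∈ Traj (Strip T) (1, 0) (2 * (T : ℤ) + z, z) ∧
      BadL (1 / (32 * A + 112)) (32 * A + 112) T (m.map (fun v => v + t)) := by
    rintro m ⟨hm1, hm2, hm3⟩
    constructor
    · have h4 : m ∈ Traj {v | x.1 - x.2 ≤ v.1 - v.2 ∧ v.1 - v.2 ≤ x.1 - x.2 + 2 * T - 1} x y :=
        ⟨hm1.1, hm1.2.1, hm1.2.2.1, hm1.2.2.2.1, hm2⟩
      refine traj_map (g := fun v => v + t) (fun _ _ e => add_right_cancel e)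
        (fun _ _ h => nbr_trans hte h) ?_ hxt hyt h4
      rintro v ⟨hv1, hv2⟩
      change 1 ≤ (v + t).1 - (v + t).2 ∧ (v + t).1 - (v + t).2 ≤ 2 * T
      rw [ht]
      simp only [Prod.fst_add, Prod.snd_add]
      omega
    · left
      intro a ha b hb
      rw [List.mem_map] at ha hb
      obtain ⟨a', ha', rfl⟩ := ha
      obtain ⟨b', hb', rfl⟩ := hb
      refine le_trans (le_of_eq ?_) ((hm3 a' ha' b' hb').trans hc)
      congr 1
      simp only [Prod.fst_add, Prod.snd_add]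
      ring
  have hinj : Function.Injective (fun m : {m // m ∈ Traj D x y ∧
      ((∀ v ∈ m, x.1 - x.2 ≤ v.1 - v.2 ∧ v.1 - v.2 ≤ x.1 - x.2 + 2 * T - 1) ∧ Wid m c)} =>
      (⟨m.1.map (fun v => v + t), hm m.1 m.2⟩ :
        {l // l ∈ Traj (Strip T) (1, 0) (2 * (T : ℤ) + z, z) ∧
        BadL (1 / (32 * A + 112)) (32 * A + 112) T l})) := by
    rintro ⟨l, h1⟩ ⟨l', h1'⟩ e
    apply Subtype.ext
    have e' := Subtype.mk.inj e
    exact List.map_injective_iff.2 (fun _ _ e => add_right_cancel e) e'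
  have h5 : ZE D x y (fun m => (∀ v ∈ m, x.1 - x.2 ≤ v.1 - v.2 ∧
      v.1 - v.2 ≤ x.1 - x.2 + 2 * T - 1) ∧ Wid m c) ≤
      ∑' l : {l // l ∈ Traj (Strip T) (1, 0) (2 * (T : ℤ) + z, z) ∧
        BadL (1 / (32 * A + 112)) (32 * A + 112) T l}, xc ^ (l.1.length - 1) := by
    refine le_trans (le_of_eq ?_) (ENNReal.tsum_comp_le_tsum_of_injective hinj
      (fun l : {l // l ∈ Traj (Strip T) (1, 0) (2 * (T : ℤ) + z, z) ∧
        BadL (1 / (32 * A + 112)) (32 * A + 112) T l} => xc ^ (l.1.length - 1)))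
    unfold ZE
    refine tsum_congr fun l => ?_
    simp only [List.length_map]
  have h6 : xc * ZE D x y (fun m => (∀ v ∈ m, x.1 - x.2 ≤ v.1 - v.2 ∧
      v.1 - v.2 ≤ x.1 - x.2 + 2 * T - 1) ∧ Wid m c) ≤ ENNReal.ofReal (Real.exp (-A)) := by
    refine le_trans ?_ h3
    rw [h2]
    apply mul_le_mul_right
    refine h5.trans ?_
    exact ENNReal.le_tsum (f := fun z : ℤ => ∑' l : {l // l ∈ Traj (Strip T) (1, 0)
      (2 * (T : ℤ) + z, z) ∧ BadL (1 / (32 * A + 112)) (32 * A + 112) T l},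
      xc ^ (l.1.length - 1)) z
  have h7 : (2 : ℝ≥0∞)⁻¹ * ZE D x y (fun m => (∀ v ∈ m, x.1 - x.2 ≤ v.1 - v.2 ∧
      v.1 - v.2 ≤ x.1 - x.2 + 2 * T - 1) ∧ Wid m c) ≤ ENNReal.ofReal (Real.exp (-A)) :=
    (mul_le_mul_left half_le_xc _).trans h6
  calc _ = 2 * ((2 : ℝ≥0∞)⁻¹ * ZE D x y (fun m => (∀ v ∈ m, x.1 - x.2 ≤ v.1 - v.2 ∧
      v.1 - v.2 ≤ x.1 - x.2 + 2 * T - 1) ∧ Wid m c)) := by
        rw [← mul_assoc, ENNReal.mul_inv_cancel (by norm_num) (by norm_num), one_mul]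
    _ ≤ _ := mul_le_mul_right h7 _

end Pool.Agent.V11324.NS
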